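import Pool.Agent.Lib.MP_eeed5c_co_T.SC
import Pool.Agent.Lib.MP_eeed5c_co_T.WA

/-!
# The mean number of edges of the matchings which do not cover given vertices
-/

set_option autoImplicit false

namespace Pool.Agent.Lib.MP_eeed5c_coW

open Finset Pool.Agent.Lib.MP_eeed5c_co Pool.Agent.Lib.MP_eeed5c_coT

section

variable {V : Type*} [Fintype V] {G : SimpleGraph V}

open scoped Classical in
/-- The sum of a function of the number of edges over the matchings which do not cover `S`. -/
noncomputable def WF (G : SimpleGraph V) (x : ℝ) (S : Finset V) (f : ℕ → ℝ) : ℝ :=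
  WS G x (fun N => if S ⊆ free N then f N.card else 0)

/-- The first moment. -/
noncomputable def ES (G : SimpleGraph V) (x : ℝ) (S : Finset V) : ℝ := WF G x S (fun k => (k : ℝ))

theorem WF_one (x : ℝ) (S : Finset V) : WF G x S (fun _ => 1) = ZS G x S := rfl

theorem WF_succ (x : ℝ) (S : Finset V) : WF G x S (fun k => ((k + 1 : ℕ) : ℝ)) =
    ES G x S + ZS G x S := by
  classical
  unfold ES ZS WF
  rw [← WS_add]
  refine WS_congr x fun N _ => ?_
  split_ifs
  · push_cast; ring
  · ring

open scoped Classical in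
theorem WF_rec {x : ℝ} {S : Finset V} {v : V} (hv : v ∉ S) (f : ℕ → ℝ) :
    WF G x S f = WF G x (insert v S) f + x * ∑ u,
      (if G.Adj v u ∧ u ∉ S then WF G x (insert u (insert v S)) (fun k => f (k + 1)) else 0) := by
  have h1 : WF G x S f = WF G x (insert v S) f + WS G x (fun M =>
      ∑ p ∈ univ.filter (fun p : V × V => s(p.1, p.2) ∈ M),
        (if S ⊆ free M then f M.card else 0) * (if p.1 = v then 1 else 0)) := by
    unfold WF
    rw [← WS_add]
    refine WS_congr x fun N hN => ?_
    rw [← Finset.mul_sum, sum_darts (mem_Mt.1 hN) (fun a => if a = v then (1 : ℝ) else 0),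
      Finset.sum_ite_eq']
    by_cases hS : S ⊆ free N
    · by_cases hv : v ∈ free N
      · rw [if_pos hS, if_pos (Finset.insert_subset hv hS)]
        rw [if_neg (by simp only [Finset.mem_filter, not_and, not_not]; exact fun _ => hv)]
        ring
      · rw [if_pos hS, if_neg (fun h => hv (h (Finset.mem_insert_self _ _))),
          if_pos (show v ∈ univ.filter (fun a => a ∉ free N) from
            Finset.mem_filter.2 ⟨Finset.mem_univ v, hv⟩)]
        ring
    · rw [if_neg hS, if_neg fun h => hS ((Finset.subset_insert _ _).trans h)]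
      ring
  have h2 := WS_insert (G := G) x (fun M p =>
    (if S ⊆ free M then f M.card else 0) * (if p.1 = v then 1 else 0))
  rw [h1, h2]
  congr 2
  have h3 : ∀ u, (if G.Adj v u ∧ u ∉ S then WF G x (insert u (insert v S)) (fun k => f (k + 1)) else 0) =
      WS G x (fun N => if (G.Adj v u ∧ u ∉ S) ∧ insert u (insert v S) ⊆ free N then
        f (N.card + 1) else 0) := by
    intro u
    by_cases h4 : G.Adj v u ∧ u ∉ S
    · rw [if_pos h4]
      unfold WF
      refine WS_congr x fun N _ => ?_
      by_cases h5 : insert u (insert v S) ⊆ free N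
      · rw [if_pos h5, if_pos ⟨h4, h5⟩]
      · rw [if_neg h5, if_neg fun h => h5 h.2]
    · rw [if_neg h4]
      unfold WS
      symm
      refine Finset.sum_eq_zero fun N _ => ?_
      dsimp only
      rw [if_neg fun h => h4 h.1, mul_zero]
  simp only [h3]
  rw [← WS_sum]
  refine WS_congr x fun N _ => ?_
  rw [Finset.sum_filter, Fintype.sum_prod_type, Finset.sum_eq_single v]
  · refine Finset.sum_congr rfl fun u _ => ?_
    dsimp only
    rw [if_pos rfl, mul_one]
    by_cases h4 : v ∈ free N ∧ u ∈ free N ∧ G.Adj v u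
    · rw [if_pos h4]
      have hnot : s(v, u) ∉ N := fun h => mem_free.1 h4.1 _ h (by simp)
      rw [Finset.card_insert_of_notMem hnot]
      by_cases h5 : S ⊆ free (insert s(v, u) N)
      · rw [if_pos h5, if_pos]
        refine ⟨⟨h4.2.2, fun h => (mem_free_insert.1 (h5 h)).2.2 rfl⟩,
          Finset.insert_subset h4.2.1 (Finset.insert_subset h4.1 fun a ha =>
            (mem_free_insert.1 (h5 ha)).1)⟩
      · rw [if_neg h5, if_neg]
        rintro ⟨⟨h6, h7⟩, h8⟩
        refine h5 fun a ha => mem_free_insert.2 ⟨h8 (by simp [ha]), ?_, ?_⟩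
        · rintro rfl
          exact hv ha
        · rintro rfl
          exact h7 ha
    · rw [if_neg h4, if_neg]
      rintro ⟨⟨h6, h7⟩, h8⟩
      exact h4 ⟨h8 (by simp), h8 (by simp), h6⟩
  · intro b _ hb
    refine Finset.sum_eq_zero fun u _ => ?_
    dsimp only
    rw [if_neg hb, mul_zero]
    split_ifs <;> rfl
  · intro h
    exact absurd (Finset.mem_univ v) h

theorem ZS_nonneg {x : ℝ} (hx : 0 ≤ x) (S : Finset V) : 0 ≤ ZS G x S := by
  classical
  unfold ZS
  refine WS_nonneg hx fun N _ => ?_
  split_ifs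
  · exact zero_le_one
  · exact le_rfl

theorem ES_nonneg {x : ℝ} (hx : 0 ≤ x) (S : Finset V) : 0 ≤ ES G x S := by
  classical
  unfold ES WF
  refine WS_nonneg hx fun N _ => ?_
  split_ifs
  · exact Nat.cast_nonneg _
  · exact le_rfl

open scoped Classical in
theorem ZS_rec {x : ℝ} {S : Finset V} {v : V} (hv : v ∉ S) :
    ZS G x S = ZS G x (insert v S) + x * ∑ u,
      (if G.Adj v u ∧ u ∉ S then ZS G x (insert u (insert v S)) else 0) :=
  WF_rec hv (fun _ => 1)

open scoped Classical in
theorem ES_rec {x : ℝ} {S : Finset V} {v : V} (hv : v ∉ S) :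
    ES G x S = ES G x (insert v S) + x * ∑ u,
      (if G.Adj v u ∧ u ∉ S then ES G x (insert u (insert v S)) +
        ZS G x (insert u (insert v S)) else 0) := by
  unfold ES
  rw [WF_rec hv]
  congr 2
  refine Finset.sum_congr rfl fun u _ => ?_
  split_ifs
  · rw [WF_succ]
    rfl
  · rfl

open scoped Classical in
/-- `e(S + v) ≤ e(S) ≤ e(S + v) + 1` for the mean number of edges. -/
theorem mean_step {x : ℝ} (hx : 0 ≤ x) (m : ℕ) : ∀ S : Finset V, (univ \ S).card ≤ m →
    ∀ v, v ∉ S → ES G x (insert v S) * ZS G x S ≤ ES G x S * ZS G x (insert v S) ∧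
      ES G x S * ZS G x (insert v S) ≤
        (ES G x (insert v S) + ZS G x (insert v S)) * ZS G x S := by
  induction m with
  | zero =>
    intro S hS v hv
    exfalso
    have h1 : univ \ S = ∅ := Finset.card_eq_zero.1 (Nat.le_zero.1 hS)
    have h2 : v ∈ univ \ S := Finset.mem_sdiff.2 ⟨Finset.mem_univ v, hv⟩
    rw [h1] at h2
    exact absurd h2 (Finset.notMem_empty v)
  | succ m ih =>
    intro S hS v hv
    have hT : (univ \ insert v S).card ≤ m := by
      have h1 : univ \ insert v S ⊂ univ \ S := by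
        refine Finset.ssubset_iff_subset_ne.2 ⟨Finset.sdiff_subset_sdiff (Finset.Subset.refl _)
          (Finset.subset_insert _ _), fun h => ?_⟩
        have h2 : v ∈ univ \ S := Finset.mem_sdiff.2 ⟨Finset.mem_univ v, hv⟩
        rw [← h] at h2
        simp at h2
      have := Finset.card_lt_card h1
      omega
    obtain ⟨T, hTd⟩ : ∃ T, T = insert v S := ⟨_, rfl⟩
    have hZ := ZS_rec (G := G) (x := x) hv
    have hE := ES_rec (G := G) (x := x) hv
    rw [← hTd] at hZ hE hT ⊢
    have ih' : ∀ u, G.Adj v u ∧ u ∉ S → ES G x (insert u T) * ZS G x T ≤ ES G x T * ZS G x (insert u T) ∧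
        ES G x T * ZS G x (insert u T) ≤
        (ES G x (insert u T) + ZS G x (insert u T)) * ZS G x T := by
      intro u hu
      refine ih T hT u ?_
      rw [hTd, Finset.mem_insert, not_or]
      exact ⟨hu.1.ne.symm, hu.2⟩
    have hZT := ZS_nonneg (G := G) hx T
    rw [hZ, hE]
    constructor
    · have h1 : (∑ u, (if G.Adj v u ∧ u ∉ S then ZS G x (insert u T) else 0)) * ES G x T ≤
          (∑ u, (if G.Adj v u ∧ u ∉ S then ES G x (insert u T) + ZS G x (insert u T) else 0)) *
            ZS G x T := by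
        rw [Finset.sum_mul, Finset.sum_mul]
        refine Finset.sum_le_sum fun u _ => ?_
        split_ifs with h
        · have := (ih' u h).2
          linarith
        · rw [zero_mul, zero_mul]
      have h2 := mul_le_mul_of_nonneg_left h1 hx
      linarith
    · have h1 : (∑ u, (if G.Adj v u ∧ u ∉ S then ES G x (insert u T) + ZS G x (insert u T) else 0)) *
          ZS G x T ≤ (∑ u, (if G.Adj v u ∧ u ∉ S then ZS G x (insert u T) else 0)) *
            (ES G x T + ZS G x T) := by
        rw [Finset.sum_mul, Finset.sum_mul]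
        refine Finset.sum_le_sum fun u _ => ?_
        split_ifs with h
        · have := (ih' u h).1
          linarith
        · rw [zero_mul, zero_mul]
      have h2 := mul_le_mul_of_nonneg_left h1 hx
      nlinarith [mul_nonneg hZT hZT]

open scoped Classical in
theorem mean_upper {x : ℝ} (hx : 0 ≤ x) {S : Finset V} {v : V} (hv : v ∉ S) :
    ES G x S * ZS G x (insert v S) ≤ (ES G x (insert v S) + ZS G x (insert v S)) * ZS G x S :=
  (mean_step hx _ S le_rfl v hv).2

open scoped Classical in
theorem ZS_one_le {x : ℝ} (hx : 0 ≤ x) (S : Finset V) : 1 ≤ ZS G x S := by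
  unfold ZS WS
  have h1 : (∅ : Finset (Sym2 V)) ∈ Mt G := by
    rw [mem_Mt, mem_mats]
    simp
  have h2 : x ^ (∅ : Finset (Sym2 V)).card *
      (if S ⊆ free (∅ : Finset (Sym2 V)) then (1 : ℝ) else 0) = 1 := by
    rw [if_pos]
    · simp
    · intro v _
      rw [mem_free]
      simp
  rw [← h2]
  have h3 : ∀ N ∈ Mt G, 0 ≤ x ^ N.card * (if S ⊆ free N then (1 : ℝ) else 0) := by
    intro N _
    split_ifs
    · positivity
    · rw [mul_zero]
  have h4 := Finset.single_le_sum h3 h1
  rw [h2] at h4
  rw [h2]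
  exact h4

open scoped Classical in
/-- The mean number of holes of the matchings which do not cover `S`. -/
theorem holes_S {n : ℕ} {x H : ℝ} (hx : 0 ≤ x)
    (h0 : n * ZS G x (∅ : Finset V) - ES G x (∅ : Finset V) ≤ H * ZS G x (∅ : Finset V))
    (S : Finset V) : n * ZS G x S - ES G x S ≤ (H + S.card) * ZS G x S := by
  induction S using Finset.induction_on with
  | empty => simpa using h0
  | insert v S hv ih =>
    have h1 := mean_upper (G := G) hx hv
    have h2 := ZS_one_le (G := G) hx S
    have h3 := ZS_one_le (G := G) hx (insert v S)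
    rw [Finset.card_insert_of_notMem hv]
    have h4 : (ZS G x S) * (n * ZS G x (insert v S) - ES G x (insert v S)) ≤
        (ZS G x S) * ((H + ((S.card + 1 : ℕ) : ℝ)) * ZS G x (insert v S)) := by
      have h5 := mul_le_mul_of_nonneg_right ih (show 0 ≤ ZS G x (insert v S) by linarith)
      push_cast
      nlinarith
    exact le_of_mul_le_mul_left h4 (by linarith)

open scoped Classical in
theorem ZS_step2 {n : ℕ} (hV : Fintype.card V = 2 * n) {x H : ℝ} (hx : 0 ≤ x)
    (h0 : n * ZS G x (∅ : Finset V) - ES G x (∅ : Finset V) ≤ H * ZS G x (∅ : Finset V))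
    {S : Finset V} {v : V} (hv : v ∉ S) :
    ZS G x S ≤ (1 + 2 * x * (H + S.card + 1)) * ZS G x (insert v S) := by
  rw [ZS_rec hv]
  have h1 : ∑ u, (if G.Adj v u ∧ u ∉ S then ZS G x (insert u (insert v S)) else 0) ≤
      2 * (n * ZS G x (insert v S) - ES G x (insert v S)) := by
    have h2 : ∑ u, (if G.Adj v u ∧ u ∉ S then ZS G x (insert u (insert v S)) else 0) ≤
        ∑ u : V, ZS G x (insert u (insert v S)) := by
      refine Finset.sum_le_sum fun u _ => ?_
      split_ifs
      · exact le_rfl
      · exact ZS_nonneg hx _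
    refine h2.trans (le_of_eq ?_)
    unfold ES ZS WF
    rw [← WS_sum, ← WS_smul, ← WS_sub, ← WS_smul]
    refine WS_congr x fun N hN => ?_
    have h3 : ∀ u, (if insert u (insert v S) ⊆ free N then (1 : ℝ) else 0) =
        if u ∈ free N then (if insert v S ⊆ free N then 1 else 0) else 0 := by
      intro u
      by_cases h : insert u (insert v S) ⊆ free N
      · rw [if_pos h, if_pos (h (Finset.mem_insert_self _ _)),
          if_pos ((Finset.subset_insert _ _).trans h)]
      · by_cases h4 : u ∈ free N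
        · rw [if_neg h, if_pos h4, if_neg fun h5 => h (Finset.insert_subset h4 h5)]
        · rw [if_neg h, if_neg h4]
    simp only [h3]
    rw [← Finset.sum_filter, Finset.sum_const, nsmul_eq_mul]
    have h4 : (univ.filter fun u => u ∈ free N) = free N := by ext; simp
    rw [h4]
    have h5 := card_free (mem_Mt.1 hN)
    have h6 : ((free N).card : ℝ) = 2 * (n - N.card) := by
      have : ((free N).card : ℝ) + 2 * N.card = 2 * n := by
        have h7 : (free N).card + 2 * N.card = 2 * n := by rw [h5, hV]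
        exact_mod_cast h7
      linarith
    rw [h6]
    split_ifs
    · ring
    · ring
  have h2 := holes_S (G := G) hx h0 (insert v S)
  rw [Finset.card_insert_of_notMem hv] at h2
  push_cast at h2
  have h3 := mul_le_mul_of_nonneg_left (h1.trans (mul_le_mul_of_nonneg_left h2 (by norm_num))) hx
  calc _ ≤ ZS G x (insert v S) + x * (2 * ((H + (S.card + 1)) * ZS G x (insert v S))) := by
        linarith
    _ = _ := by ring

open scoped Classical in
theorem ZS_low {n : ℕ} (hV : Fintype.card V = 2 * n) {x H : ℝ} (hx : 0 ≤ x) (hH : 0 ≤ H)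
    (h0 : n * ZS G x (∅ : Finset V) - ES G x (∅ : Finset V) ≤ H * ZS G x (∅ : Finset V))
    {s : ℕ} (S : Finset V) (hS : S.card ≤ s) :
    (mp G).eval x ≤ (1 + 2 * x * (H + s)) ^ S.card * ZS G x S := by
  induction S using Finset.induction_on with
  | empty => rw [ZS_empty]; simp
  | insert v S hv ih =>
    rw [Finset.card_insert_of_notMem hv] at hS ⊢
    have h1 := ih (by omega)
    have h2 := ZS_step2 hV hx h0 hv
    have h3 : (S.card : ℝ) + 1 ≤ s := by exact_mod_cast hS
    have hs0 : (0 : ℝ) ≤ S.card := Nat.cast_nonneg _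
    have hs1 : (0 : ℝ) ≤ s := Nat.cast_nonneg _
    have h4 : 1 + 2 * x * (H + S.card + 1) ≤ 1 + 2 * x * (H + s) := by
      have := mul_le_mul_of_nonneg_left (show H + S.card + 1 ≤ H + s by linarith)
        (show 0 ≤ 2 * x by positivity)
      linarith
    have h5 := ZS_nonneg (G := G) hx (insert v S)
    have h6 : 0 ≤ 1 + 2 * x * (H + s) := by positivity
    calc (mp G).eval x ≤ _ := h1
      _ ≤ (1 + 2 * x * (H + s)) ^ S.card * ((1 + 2 * x * (H + s)) * ZS G x (insert v S)) := by
          refine mul_le_mul_of_nonneg_left (h2.trans ?_) (pow_nonneg h6 _)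
          exact mul_le_mul_of_nonneg_right h4 h5
      _ = _ := by ring

/-- The mean number of holes of one block. -/
theorem holes_block {r : ℕ} {x : ℝ} (hx : 0 < x) : (r : ℝ) - mb r x ≤ √(r / x) := by
  have hL0 : 0 < (Lp r).eval x := by have := Lp_pos r hx.le; linarith
  obtain ⟨h1, h2, -⟩ := mb_facts r hx
  refine Real.le_sqrt_of_sq_le ?_
  -- the second moment
  obtain ⟨S2, hS2⟩ : ∃ S2, S2 = ∑ j ∈ range (r + 1), ((r : ℝ) - j) ^ 2 * (ell r j * x ^ j) :=
    ⟨_, rfl⟩
  have h3 : x * S2 = x * (Lp r).derivative.eval x := by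
    rw [Lp_eval_deriv, hS2, Finset.sum_range_succ, sub_self, Finset.sum_range_succ']
    simp only [Nat.cast_zero, zero_mul, add_zero, ne_eq, OfNat.ofNat_ne_zero,
      not_false_eq_true, zero_pow]
    rw [Finset.mul_sum]
    refine Finset.sum_congr rfl fun j _ => ?_
    have h := ell_succ r j
    push_cast
    calc x * (((r : ℝ) - j) ^ 2 * (ell r j * x ^ j))
        = (((r : ℝ) - j) ^ 2 * ell r j) * x ^ (j + 1) := by ring
      _ = _ := by rw [← h]; ring
  have h4 : x * (Lp r).derivative.eval x ≤ r * (Lp r).eval x := by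
    have h5 : mb r x * (Lp r).eval x = x * (Lp r).derivative.eval x := by
      unfold mb
      rw [div_mul_cancel₀]
      exact hL0.ne'
    rw [← h5]
    exact mul_le_mul_of_nonneg_right h2 hL0.le
  have h5 : ((r : ℝ) - mb r x) * (Lp r).eval x =
      ∑ j ∈ range (r + 1), ((r : ℝ) - j) * (ell r j * x ^ j) := by
    have h6 : mb r x * (Lp r).eval x = x * (Lp r).derivative.eval x := by
      unfold mb
      rw [div_mul_cancel₀]
      exact hL0.ne'
    rw [sub_mul, h6, Lp_eval_deriv, Lp_eval, Finset.mul_sum, ← Finset.sum_sub_distrib]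
    refine Finset.sum_congr rfl fun j _ => ?_
    ring
  have hw : ∀ j ∈ range (r + 1), 0 ≤ ell r j * x ^ j :=
    fun j _ => mul_nonneg (ell_nonneg _ _) (pow_nonneg hx.le _)
  have h7 : (((r : ℝ) - mb r x) * (Lp r).eval x) ^ 2 ≤ (Lp r).eval x * S2 := by
    rw [h5]
    have h8 := Finset.sum_mul_sq_le_sq_mul_sq (range (r + 1))
      (fun j => √(ell r j * x ^ j)) (fun j => ((r : ℝ) - j) * √(ell r j * x ^ j))
    have e1 : ∑ j ∈ range (r + 1), √(ell r j * x ^ j) * (((r : ℝ) - j) * √(ell r j * x ^ j)) =
        ∑ j ∈ range (r + 1), ((r : ℝ) - j) * (ell r j * x ^ j) := by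
      refine Finset.sum_congr rfl fun j hj => ?_
      have := Real.mul_self_sqrt (hw j hj)
      calc _ = ((r : ℝ) - j) * (√(ell r j * x ^ j) * √(ell r j * x ^ j)) := by ring
        _ = _ := by rw [this]
    have e2 : ∑ j ∈ range (r + 1), √(ell r j * x ^ j) ^ 2 = (Lp r).eval x := by
      rw [Lp_eval]
      exact Finset.sum_congr rfl fun j hj => Real.sq_sqrt (hw j hj)
    have e3 : ∑ j ∈ range (r + 1), (((r : ℝ) - j) * √(ell r j * x ^ j)) ^ 2 = S2 := by
      rw [hS2]
      refine Finset.sum_congr rfl fun j hj => ?_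
      rw [mul_pow, Real.sq_sqrt (hw j hj)]
    rw [e1, e2, e3] at h8
    exact h8
  rw [le_div_iff₀ hx]
  have h9 : ((Lp r).eval x) ^ 2 * (((r : ℝ) - mb r x) ^ 2 * x) ≤ ((Lp r).eval x) ^ 2 * r := by
    have h10 := mul_le_mul_of_nonneg_right h7 hx.le
    have h11 : (Lp r).eval x * (x * S2) ≤ (Lp r).eval x * (r * (Lp r).eval x) :=
      mul_le_mul_of_nonneg_left (h3.le.trans h4) hL0.le
    nlinarith
  exact le_of_mul_le_mul_left h9 (by positivity)

theorem ES_empty (x : ℝ) : ES G x (∅ : Finset V) = x * (mp G).derivative.eval x := by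
  classical
  unfold ES WF
  have h1 : WS G x (fun N => if (∅ : Finset V) ⊆ free N then (N.card : ℝ) else 0) =
      WS G x (fun N => (N.card : ℝ)) :=
    WS_congr x fun N _ => if_pos (Finset.empty_subset _)
  rw [h1, WS_levels x _ (K := Fintype.card V + 1) (by omega)]
  unfold mp
  rw [Polynomial.derivative_sum, Polynomial.eval_finset_sum, Finset.mul_sum]
  refine Finset.sum_congr rfl fun i _ => ?_
  have h2 : ∑ N ∈ mats G i, (N.card : ℝ) = i * ((mats G i).card : ℝ) := by
    rw [Finset.sum_congr rfl fun N hN => by rw [(mem_mats.1 hN).2.1], Finset.sum_const, nsmul_eq_mul]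
    ring
  rw [h2, Polynomial.derivative_monomial, Polynomial.eval_monomial]
  rcases i with _ | i
  · simp
  · rw [Nat.add_sub_cancel, pow_succ]
    ring

open scoped Classical in
/-- The weight of the matchings which do not cover `S`, `|S| ≤ 5`, when the logarithmic derivative of
the gap is at most one. -/
theorem ZS_five {q r : ℕ} (hq : 1 ≤ q) (hV : Fintype.card V = 2 * (q * r)) {x y : ℝ}
    (hxy : (r : ℝ) * x = y) (hy : 1 ≤ y) (hx12 : 12 * x ≤ 1)
    (hf : x * (q * ((Lp r).derivative.eval x / (Lp r).eval x) -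
      (mp G).derivative.eval x / (mp G).eval x) ≤ 1)
    (S : Finset V) (hS : S.card ≤ 5) :
    (mp G).eval x ≤ (4 * q * √y) ^ S.card * ZS G x S := by
  have hx0 : 0 < x := by
    by_contra hcon
    push Not at hcon
    have := mul_nonneg_of_nonpos_of_nonpos hcon (show -(r : ℝ) ≤ 0 by linarith [(Nat.cast_nonneg r : (0:ℝ) ≤ r)])
    linarith
  have hM := mp_eval_pos (G := G) hx0.le
  have hq1 : (1 : ℝ) ≤ q := by exact_mod_cast hq
  have hy1 : 1 ≤ √y := by
    rw [show (1 : ℝ) = √1 by simp]
    exact Real.sqrt_le_sqrt hy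
  have hE := ES_empty (G := G) x
  have h0 : ((q * r : ℕ) : ℝ) * ZS G x (∅ : Finset V) - ES G x (∅ : Finset V) ≤
      (q * √(r / x) + 1) * ZS G x (∅ : Finset V) := by
    rw [hE, ZS_empty]
    have h1 := holes_block (r := r) hx0
    unfold mb at h1
    have h2 := mul_le_mul_of_nonneg_left h1 (show (0 : ℝ) ≤ q by linarith)
    have h3 : ((q * r : ℕ) : ℝ) - x * ((mp G).derivative.eval x / (mp G).eval x) ≤
        q * √(r / x) + 1 := by
      push_cast
      have h4 : x * (q * ((Lp r).derivative.eval x / (Lp r).eval x) -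
        (mp G).derivative.eval x / (mp G).eval x) = q * (x * (Lp r).derivative.eval x /
        (Lp r).eval x) - x * ((mp G).derivative.eval x / (mp G).eval x) := by ring
      rw [h4] at hf
      linarith
    have h5 := mul_le_mul_of_nonneg_right h3 (show 0 ≤ (mp G).eval x by linarith)
    have h6 : (((q * r : ℕ) : ℝ) - x * ((mp G).derivative.eval x / (mp G).eval x)) *
        (mp G).eval x = ((q * r : ℕ) : ℝ) * (mp G).eval x - x * (mp G).derivative.eval x := by
      field_simp
    rw [h6] at h5
    exact h5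
  have h1 := ZS_low (G := G) (x := x) (s := 5) hV hx0.le (by positivity) h0 S hS
  refine h1.trans ?_
  refine mul_le_mul_of_nonneg_right ?_ (ZS_nonneg hx0.le S)
  refine pow_le_pow_left₀ (by positivity) ?_ _
  have h2 : x * √(r / x) = √y := by
    rw [← hxy]
    have e : (r : ℝ) * x = (r / x) * x ^ 2 := by field_simp
    rw [e, Real.sqrt_mul (by positivity), Real.sqrt_sq hx0.le, mul_comm]
  push_cast
  have h3 : 1 + 2 * x * (q * √(r / x) + 1 + 5) = 1 + 2 * (q * (x * √(r / x))) + 12 * x := by ring
  rw [h3, h2]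
  nlinarith

end

end Pool.Agent.Lib.MP_eeed5c_coW
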