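import Pool.Agent.Lib.MP_eeed5c_co_T.SC

/-!
# The slide inequality

A slide replaces the edge `{a, c'}` of a matching by an edge `{a, c}` where `c` is uncovered.
-/

set_option autoImplicit false

namespace Pool.Agent.Lib.MP_eeed5c_coW

open Finset Pool.Agent.Lib.MP_eeed5c_co Pool.Agent.Lib.MP_eeed5c_coT

section

variable {V : Type*} [Fintype V] {G : SimpleGraph V}

open scoped Classical in
/-- The oriented edges of a matching. -/
noncomputable def dts (N : Finset (Sym2 V)) : Finset (V × V) :=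
  univ.filter fun p : V × V => s(p.1, p.2) ∈ N

theorem mem_dts {N : Finset (Sym2 V)} {p : V × V} : p ∈ dts N ↔ s(p.1, p.2) ∈ N := by
  simp [dts]

open scoped Classical in
/-- One oriented edge against the set `F`. -/
noncomputable def hF (G : SimpleGraph V) (g : V → ℝ) (F : Finset V) (a b : V) : ℝ :=
  ∑ z ∈ F.filter (fun z => G.Adj a z), (g b - g z)

open scoped Classical in
/-- The generator applied to the sum of `g` over the uncovered vertices outside `S`. -/
noncomputable def LY (G : SimpleGraph V) (g : V → ℝ) (S : Finset V) (N : Finset (Sym2 V)) : ℝ :=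
  ∑ p ∈ dts N, hF G g (free N \ S) p.1 p.2

open scoped Classical in
/-- The sum of `g` over the uncovered vertices outside `S`. -/
noncomputable def YY (g : V → ℝ) (S : Finset V) (N : Finset (Sym2 V)) : ℝ :=
  ∑ z ∈ free N \ S, g z

open scoped Classical in
theorem free_insert (N : Finset (Sym2 V)) (a b : V) :
    free (insert s(a, b) N) = (free N \ {a, b}) := by
  ext v
  rw [mem_free_insert, Finset.mem_sdiff, Finset.mem_insert, Finset.mem_singleton, not_or]

open scoped Classical in
theorem YY_insert (g : V → ℝ) (S : Finset V) {N : Finset (Sym2 V)} {a b : V} (ha : a ∈ free N)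
    (hb : b ∈ free N) (haS : a ∉ S) (hbS : b ∉ S) (hab : a ≠ b) :
    YY g S (insert s(a, b) N) = YY g S N - g a - g b := by
  unfold YY
  rw [free_insert]
  have e : (free N \ {a, b}) \ S = (free N \ S) \ {a, b} := by
    ext v; simp only [Finset.mem_sdiff]; tauto
  have hsub : ({a, b} : Finset V) ⊆ free N \ S := by
    intro v hv
    rw [Finset.mem_insert, Finset.mem_singleton] at hv
    rcases hv with rfl | rfl
    · exact Finset.mem_sdiff.2 ⟨ha, haS⟩
    · exact Finset.mem_sdiff.2 ⟨hb, hbS⟩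
  have h := Finset.sum_sdiff (f := g) hsub
  rw [Finset.sum_pair hab] at h
  rw [e]
  linarith

open scoped Classical in
theorem dts_insert {N : Finset (Sym2 V)} {a b : V} (ha : a ∈ free N) (hab : a ≠ b)
    (f : V × V → ℝ) :
    ∑ p ∈ dts (insert s(a, b) N), f p = ∑ p ∈ dts N, f p + f (a, b) + f (b, a) := by
  have hne : ((a, b) : V × V) ≠ (b, a) := fun h => hab (Prod.ext_iff.1 h).1
  have e : dts (insert s(a, b) N) = insert (a, b) (insert (b, a) (dts N)) := by
    ext ⟨u, v⟩
    simp only [mem_dts, Finset.mem_insert, Prod.mk.injEq, Sym2.eq_iff]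
    tauto
  have hnot : s(a, b) ∉ N := fun h => mem_free.1 ha _ h (by simp)
  have h1 : ((b, a) : V × V) ∉ dts N := by
    rw [mem_dts]
    show s(b, a) ∉ N
    rw [Sym2.eq_swap]
    exact hnot
  have h2 : ((a, b) : V × V) ∉ insert (b, a) (dts N) := by
    rw [Finset.mem_insert, mem_dts, not_or]
    exact ⟨hne, hnot⟩
  rw [e, Finset.sum_insert h2, Finset.sum_insert h1]
  ring

open scoped Classical in
theorem hF_le {r : ℕ} (hdeg : ∀ v : V, (univ.filter fun u => G.Adj v u).card ≤ r) {g : V → ℝ}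
    (hg : ∀ z w, |g z - g w| ≤ 2) (F : Finset V) (a b : V) : |hF G g F a b| ≤ 2 * r := by
  unfold hF
  refine (Finset.abs_sum_le_sum_abs _ _).trans ?_
  refine (Finset.sum_le_sum fun z _ => hg b z).trans ?_
  rw [Finset.sum_const, nsmul_eq_mul]
  have h1 : ((F.filter (fun z => G.Adj a z)).card : ℝ) ≤ r := by
    have : (F.filter (fun z => G.Adj a z)).card ≤ r :=
      (Finset.card_le_card (Finset.filter_subset_filter _ (Finset.subset_univ _))).trans (hdeg a)
    exact_mod_cast this
  nlinarith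

omit [Fintype V] in
open scoped Classical in
theorem hF_insert {g : V → ℝ} {F : Finset V} {c : V} (hc : c ∉ F) (a b : V) :
    hF G g (insert c F) a b = hF G g F a b + if G.Adj a c then g b - g c else 0 := by
  unfold hF
  rw [Finset.filter_insert]
  split_ifs with h
  · rw [Finset.sum_insert (by simp [hc])]
    ring
  · ring

open scoped Classical in
private theorem SL_near {r i : ℕ} (hdeg : ∀ v : V, (univ.filter fun u => G.Adj v u).card ≤ r)
    {g : V → ℝ} (hg : ∀ z w, |g z - g w| ≤ 2) {N : Finset (Sym2 V)} (hN : N ∈ mats G i) (c : V) :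
    |∑ p ∈ dts N, (if G.Adj p.1 c then g p.2 - g c else 0)| ≤ 2 * r := by
  refine (Finset.abs_sum_le_sum_abs _ _).trans ?_
  have h1 : ∀ p ∈ dts N, |(if G.Adj p.1 c then g p.2 - g c else 0)| ≤
      2 * (if G.Adj c p.1 then (1 : ℝ) else 0) := by
    intro p _
    by_cases h : G.Adj p.1 c
    · rw [if_pos h, if_pos h.symm]
      have := hg p.2 c
      linarith
    · rw [if_neg h, if_neg fun h' => h h'.symm]
      simp
  refine (Finset.sum_le_sum h1).trans ?_
  rw [← Finset.mul_sum]
  unfold dts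
  rw [sum_darts hN (fun v => if G.Adj c v then (1 : ℝ) else 0), Finset.sum_boole, Finset.filter_filter]
  have h2 : ((univ.filter fun v => v ∉ free N ∧ G.Adj c v).card : ℝ) ≤ r := by
    have : (univ.filter fun v => v ∉ free N ∧ G.Adj c v).card ≤ r := by
      refine (Finset.card_le_card ?_).trans (hdeg c)
      intro v hv
      rw [Finset.mem_filter] at hv ⊢
      exact ⟨hv.1, hv.2.2⟩
    exact_mod_cast this
  nlinarith

open scoped Classical in
theorem LY_diff {r i : ℕ} (hdeg : ∀ v : V, (univ.filter fun u => G.Adj v u).card ≤ r)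
    {g : V → ℝ} (hg : ∀ z w, |g z - g w| ≤ 2) {S : Finset V} {N : Finset (Sym2 V)}
    (hN : N ∈ mats G i) {a c c' : V} (ha : a ∈ free N) (hc : c ∈ free N) (hc' : c' ∈ free N)
    (hcS : c ∉ S) (hcS' : c' ∉ S) (hac : G.Adj a c) (hac' : G.Adj a c') (hne : c ≠ c') :
    |LY G g S (insert s(a, c) N) - LY G g S (insert s(a, c') N)| ≤ 10 * r := by
  have hac1 : a ≠ c := hac.ne
  have hac1' : a ≠ c' := hac'.ne
  obtain ⟨F, hF0⟩ : ∃ F : Finset V, F = (free N \ S) \ ({a, c, c'} : Finset V) := ⟨_, rfl⟩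
  have e1 : free (insert s(a, c) N) \ S = insert c' F := by
    rw [free_insert, hF0]
    ext v
    simp only [Finset.mem_sdiff, Finset.mem_insert, Finset.mem_singleton, not_or]
    constructor
    · rintro ⟨⟨h1, h2, h3⟩, h4⟩
      by_cases h5 : v = c'
      · exact Or.inl h5
      · exact Or.inr ⟨⟨h1, h4⟩, h2, h3, h5⟩
    · rintro (rfl | ⟨⟨h1, h4⟩, h2, h3, h5⟩)
      · exact ⟨⟨hc', hac1'.symm, hne.symm⟩, hcS'⟩
      · exact ⟨⟨h1, h2, h3⟩, h4⟩
  have e2 : free (insert s(a, c') N) \ S = insert c F := by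
    rw [free_insert, hF0]
    ext v
    simp only [Finset.mem_sdiff, Finset.mem_insert, Finset.mem_singleton, not_or]
    constructor
    · rintro ⟨⟨h1, h2, h3⟩, h4⟩
      by_cases h5 : v = c
      · exact Or.inl h5
      · exact Or.inr ⟨⟨h1, h4⟩, h2, h5, h3⟩
    · rintro (rfl | ⟨⟨h1, h4⟩, h2, h3, h5⟩)
      · exact ⟨⟨hc, hac1.symm, hne⟩, hcS⟩
      · exact ⟨⟨h1, h2, h5⟩, h4⟩
  have hcF : c ∉ F := by rw [hF0]; simp
  have hcF' : c' ∉ F := by rw [hF0]; simp
  unfold LY
  rw [dts_insert ha hac1, dts_insert ha hac1', e1, e2]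
  simp only [hF_insert hcF, hF_insert hcF', Finset.sum_add_distrib]
  rw [if_pos hac, if_pos hac']
  have b1 := SL_near hdeg hg hN c
  have b2 := SL_near hdeg hg hN c'
  have b3 := hF_le hdeg hg (insert c' F) c a
  have b4 := hF_le hdeg hg (insert c F) c' a
  rw [hF_insert hcF'] at b3
  rw [hF_insert hcF] at b4
  -- the edge at `a`
  have b5 : |hF G g F a c + (g c - g c') - (hF G g F a c' + (g c' - g c))| ≤ 2 * r := by
    have h1 : hF G g F a c + (g c - g c') - (hF G g F a c' + (g c' - g c)) =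
        (((F.filter (fun z => G.Adj a z)).card : ℝ) + 2) * (g c - g c') := by
      have h2 : hF G g F a c - hF G g F a c' =
          ((F.filter (fun z => G.Adj a z)).card : ℝ) * (g c - g c') := by
        unfold hF
        rw [← Finset.sum_sub_distrib, ← nsmul_eq_mul, ← Finset.sum_const]
        refine Finset.sum_congr rfl fun z _ => ?_
        ring
      linarith
    have h3 : ((F.filter (fun z => G.Adj a z)).card : ℝ) + 2 ≤ r := by
      have h4 : (F.filter (fun z => G.Adj a z)).card + 2 ≤ r := by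
        have h5 : insert c (insert c' (F.filter (fun z => G.Adj a z))) ⊆
            univ.filter fun u => G.Adj a u := by
          intro v hv
          rw [Finset.mem_insert, Finset.mem_insert, Finset.mem_filter] at hv
          rw [Finset.mem_filter]
          rcases hv with rfl | rfl | hv
          · exact ⟨Finset.mem_univ _, hac⟩
          · exact ⟨Finset.mem_univ _, hac'⟩
          · exact ⟨Finset.mem_univ _, hv.2⟩
        have h6 := (Finset.card_le_card h5).trans (hdeg a)
        rw [Finset.card_insert_of_notMem, Finset.card_insert_of_notMem] at h6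
        · exact h6
        · rw [Finset.mem_filter]
          exact fun h => hcF' h.1
        · rw [Finset.mem_insert, Finset.mem_filter, not_or]
          exact ⟨hne, fun h => hcF h.1⟩
      exact_mod_cast h4
    rw [h1, abs_mul, abs_of_nonneg (by positivity)]
    have h7 := hg c c'
    have h8 : (0 : ℝ) ≤ ((F.filter (fun z => G.Adj a z)).card : ℝ) + 2 := by positivity
    nlinarith [abs_nonneg (g c - g c')]
  rw [abs_le] at b1 b2 b3 b4 b5 ⊢
  constructor <;> linarith

/-- The vertex `a` and two of its neighbours outside `S`, all uncovered. -/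
def TT (G : SimpleGraph V) (S : Finset V) (N : Finset (Sym2 V)) (a b c : V) : Prop :=
  S ⊆ free N ∧ a ∈ free N ∧ b ∈ free N ∧ c ∈ free N ∧ a ∉ S ∧ b ∉ S ∧ c ∉ S ∧ G.Adj a b ∧
    G.Adj a c ∧ b ≠ c

theorem TT_swap {S : Finset V} {N : Finset (Sym2 V)} {a b c : V} :
    TT G S N a b c ↔ TT G S N a c b := by
  unfold TT
  constructor
  · rintro ⟨h1, h2, h3, h4, h5, h6, h7, h8, h9, h10⟩
    exact ⟨h1, h2, h4, h3, h5, h7, h6, h9, h8, h10.symm⟩
  · rintro ⟨h1, h2, h3, h4, h5, h6, h7, h8, h9, h10⟩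
    exact ⟨h1, h2, h4, h3, h5, h7, h6, h9, h8, h10.symm⟩

open scoped Classical in
/-- The sum over the slides of a matching. -/
noncomputable def slS (G : SimpleGraph V) (S : Finset V) (N : Finset (Sym2 V))
    (Φ : V → V → V → ℝ) : ℝ :=
  ∑ p ∈ dts N, ∑ z ∈ (free N \ S).filter (fun z => G.Adj p.1 z), Φ p.1 p.2 z

open scoped Classical in
theorem slS_sum (S : Finset V) (i : ℕ) (Φ : Finset (Sym2 V) → V → V → V → ℝ) :
    ∑ N ∈ mats G (i + 1), (if S ⊆ free N then slS G S N (Φ N) else 0) =
      ∑ N ∈ mats G i, ∑ a, ∑ b, ∑ c,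
        (if TT G S N a b c then Φ (insert s(a, b) N) a b c else 0) := by
  have h := sum_insert (G := G) i (fun N p => if S ⊆ free N then
    ∑ z ∈ (free N \ S).filter (fun z => G.Adj p.1 z), Φ N p.1 p.2 z else 0)
  have e1 : ∀ N ∈ mats G (i + 1), (if S ⊆ free N then slS G S N (Φ N) else 0) =
      ∑ p ∈ univ.filter (fun p : V × V => s(p.1, p.2) ∈ N), (if S ⊆ free N then
        ∑ z ∈ (free N \ S).filter (fun z => G.Adj p.1 z), Φ N p.1 p.2 z else 0) := by
    intro N _
    split_ifs with h1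
    · rfl
    · rw [Finset.sum_const_zero]
  rw [Finset.sum_congr rfl e1, h]
  refine Finset.sum_congr rfl fun N _ => ?_
  rw [Finset.sum_filter, Fintype.sum_prod_type]
  refine Finset.sum_congr rfl fun a _ => Finset.sum_congr rfl fun b _ => ?_
  dsimp only
  by_cases h1 : a ∈ free N ∧ b ∈ free N ∧ G.Adj a b
  · rw [if_pos h1, free_insert]
    by_cases h2 : S ⊆ free N \ {a, b}
    · rw [if_pos h2, ← Finset.sum_filter]
      refine Finset.sum_congr ?_ fun _ _ => rfl
      ext c
      have h3 : S ⊆ free N := h2.trans Finset.sdiff_subset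
      have h4 : a ∉ S := fun h5 => by
        have := h2 h5
        simp at this
      have h5 : b ∉ S := fun h5 => by
        have := h2 h5
        simp at this
      simp only [TT, Finset.mem_filter, Finset.mem_sdiff, Finset.mem_insert, Finset.mem_singleton,
        not_or, Finset.mem_univ, true_and]
      constructor
      · rintro ⟨⟨⟨h6, h7, h8⟩, h9⟩, h10⟩
        exact ⟨h3, h1.1, h1.2.1, h6, h4, h5, h9, h1.2.2, h10, fun h => h8 h.symm⟩
      · rintro ⟨-, -, -, h6, -, -, h9, -, h10, h8⟩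
        exact ⟨⟨⟨h6, h10.ne.symm, fun h => h8 h.symm⟩, h9⟩, h10⟩
    · rw [if_neg h2]
      symm
      refine Finset.sum_eq_zero fun c _ => if_neg ?_
      rintro ⟨h3, -, -, -, h4, h5, -⟩
      refine h2 fun v hv => ?_
      rw [Finset.mem_sdiff, Finset.mem_insert, Finset.mem_singleton, not_or]
      refine ⟨h3 hv, ?_, ?_⟩
      · rintro rfl
        exact h4 hv
      · rintro rfl
        exact h5 hv
  · rw [if_neg h1]
    symm
    refine Finset.sum_eq_zero fun c _ => if_neg ?_
    rintro ⟨-, h2, h3, -, -, -, -, h4, -⟩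
    exact h1 ⟨h2, h3, h4⟩

theorem LY_eq (g : V → ℝ) (S : Finset V) (N : Finset (Sym2 V)) :
    LY G g S N = slS G S N (fun _ b z => g b - g z) := rfl

theorem slS_mul (S : Finset V) (N : Finset (Sym2 V)) (Φ : V → V → V → ℝ) (y : ℝ) :
    slS G S N (fun a b c => Φ a b c * y) = slS G S N Φ * y := by
  unfold slS
  rw [Finset.sum_mul]
  refine Finset.sum_congr rfl fun p _ => ?_
  rw [Finset.sum_mul]

open scoped Classical in
private theorem SL_swap (S : Finset V) (N : Finset (Sym2 V)) (Φ : V → V → V → ℝ) :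
    ∑ a, ∑ b, ∑ c, (if TT G S N a b c then Φ a b c else 0) =
      ∑ a, ∑ b, ∑ c, (if TT G S N a b c then Φ a c b else 0) := by
  refine Finset.sum_congr rfl fun a _ => ?_
  rw [Finset.sum_comm]
  refine Finset.sum_congr rfl fun b _ => Finset.sum_congr rfl fun c _ => ?_
  by_cases h : TT G S N a b c
  · rw [if_pos h, if_pos (TT_swap.1 h)]
  · rw [if_neg h, if_neg fun h' => h (TT_swap.1 h')]

open scoped Classical in
/-- The slide inequality for the matchings with `i + 1` edges. -/
theorem slide_level {r : ℕ} (hdeg : ∀ v : V, (univ.filter fun u => G.Adj v u).card ≤ r)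
    {g : V → ℝ} (hg : ∀ z, g z = -1 ∨ g z = 0 ∨ g z = 1) (S : Finset V) (i : ℕ) :
    ∑ N ∈ mats G i, ∑ a, ∑ b, ∑ c, (if TT G S N a b c ∧ g b ≠ g c then (1 : ℝ) else 0) ≤
      20 * r * ∑ N ∈ mats G (i + 1), (if S ⊆ free N then YY g S N ^ 2 else 0) := by
  have hg2 : ∀ z w, |g z - g w| ≤ 2 := by
    intro z w
    rw [abs_le]
    rcases hg z with h | h | h <;> rcases hg w with h' | h' | h' <;> rw [h, h'] <;>
      constructor <;> norm_num
  have hg1 : ∀ z w, |g z - g w| ≤ (g z - g w) ^ 2 := by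
    intro z w
    rcases hg z with h | h | h <;> rcases hg w with h' | h' | h' <;> rw [h, h'] <;> norm_num
  have hg0 : ∀ z w, g z ≠ g w → 1 ≤ (g z - g w) ^ 2 := by
    intro z w hne
    rcases hg z with h | h | h <;> rcases hg w with h' | h' | h' <;> rw [h, h'] at hne ⊢ <;>
      first | exact absurd rfl hne | norm_num
  -- the quadratic form
  obtain ⟨E, hE⟩ : ∃ E, E = ∑ N ∈ mats G i, ∑ a, ∑ b, ∑ c,
      (if TT G S N a b c then (g b - g c) ^ 2 else 0) := ⟨_, rfl⟩
  obtain ⟨B, hB⟩ : ∃ B, B = ∑ N ∈ mats G (i + 1), (if S ⊆ free N then YY g S N ^ 2 else 0) :=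
    ⟨_, rfl⟩
  have hE0 : 0 ≤ E := by
    rw [hE]
    refine Finset.sum_nonneg fun N _ => Finset.sum_nonneg fun a _ => Finset.sum_nonneg fun b _ =>
      Finset.sum_nonneg fun c _ => ?_
    split_ifs
    · positivity
    · exact le_rfl
  have hB0 : 0 ≤ B := by
    rw [hB]
    refine Finset.sum_nonneg fun N _ => ?_
    split_ifs
    · positivity
    · exact le_rfl
  have hr0 : (0 : ℝ) ≤ r := Nat.cast_nonneg r
  -- first identity
  obtain ⟨A1, hA1⟩ : ∃ A1, A1 = ∑ N ∈ mats G (i + 1),
      (if S ⊆ free N then LY G g S N * YY g S N else 0) := ⟨_, rfl⟩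
  have h1 : 2 * A1 = -E := by
    have e1 : A1 = ∑ N ∈ mats G i, ∑ a, ∑ b, ∑ c,
        (if TT G S N a b c then (g b - g c) * (YY g S N - g a - g b) else 0) := by
      have h2 := slS_sum (G := G) S i (fun N _ b z => (g b - g z) * YY g S N)
      have h3 : A1 = ∑ N ∈ mats G (i + 1), (if S ⊆ free N then
          slS G S N (fun _ b z => (g b - g z) * YY g S N) else 0) := by
        rw [hA1]
        refine Finset.sum_congr rfl fun N _ => ?_
        rw [slS_mul S N (fun _ b z => g b - g z), LY_eq]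
      rw [h3, h2]
      refine Finset.sum_congr rfl fun N _ => Finset.sum_congr rfl fun a _ =>
        Finset.sum_congr rfl fun b _ => Finset.sum_congr rfl fun c _ => ?_
      split_ifs with h4
      · rw [YY_insert g S h4.2.1 h4.2.2.1 h4.2.2.2.2.1 h4.2.2.2.2.2.1 h4.2.2.2.2.2.2.2.1.ne]
      · rfl
    have e2 : A1 = ∑ N ∈ mats G i, ∑ a, ∑ b, ∑ c,
        (if TT G S N a b c then (g c - g b) * (YY g S N - g a - g c) else 0) := by
      rw [e1]
      refine Finset.sum_congr rfl fun N _ => ?_
      exact SL_swap S N (fun a b c => (g b - g c) * (YY g S N - g a - g b))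
    have e3 : 2 * A1 = A1 + A1 := by ring
    rw [e3]
    nth_rewrite 1 [e1]
    rw [e2, hE, ← Finset.sum_add_distrib, ← Finset.sum_neg_distrib]
    refine Finset.sum_congr rfl fun N _ => ?_
    rw [← Finset.sum_add_distrib, ← Finset.sum_neg_distrib]
    refine Finset.sum_congr rfl fun a _ => ?_
    rw [← Finset.sum_add_distrib, ← Finset.sum_neg_distrib]
    refine Finset.sum_congr rfl fun b _ => ?_
    rw [← Finset.sum_add_distrib, ← Finset.sum_neg_distrib]
    refine Finset.sum_congr rfl fun c _ => ?_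
    split_ifs
    · ring
    · ring
  -- second identity
  obtain ⟨A2, hA2⟩ : ∃ A2, A2 = ∑ N ∈ mats G (i + 1),
      (if S ⊆ free N then LY G g S N * LY G g S N else 0) := ⟨_, rfl⟩
  have h2 : 2 * A2 ≤ 10 * r * E := by
    have e1 : A2 = ∑ N ∈ mats G i, ∑ a, ∑ b, ∑ c,
        (if TT G S N a b c then (g b - g c) * LY G g S (insert s(a, b) N) else 0) := by
      have h2 := slS_sum (G := G) S i (fun N _ b z => (g b - g z) * LY G g S N)
      have h3 : A2 = ∑ N ∈ mats G (i + 1), (if S ⊆ free N then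
          slS G S N (fun _ b z => (g b - g z) * LY G g S N) else 0) := by
        rw [hA2]
        refine Finset.sum_congr rfl fun N _ => ?_
        rw [slS_mul S N (fun _ b z => g b - g z), ← LY_eq]
      rw [h3, h2]
    have e2 : A2 = ∑ N ∈ mats G i, ∑ a, ∑ b, ∑ c,
        (if TT G S N a b c then (g c - g b) * LY G g S (insert s(a, c) N) else 0) := by
      rw [e1]
      refine Finset.sum_congr rfl fun N _ => ?_
      exact SL_swap S N (fun a b c => (g b - g c) * LY G g S (insert s(a, b) N))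
    have e3 : 2 * A2 = A2 + A2 := by ring
    rw [e3]
    nth_rewrite 1 [e1]
    rw [e2, hE, ← Finset.sum_add_distrib, Finset.mul_sum]
    refine Finset.sum_le_sum fun N hN => ?_
    rw [← Finset.sum_add_distrib, Finset.mul_sum]
    refine Finset.sum_le_sum fun a _ => ?_
    rw [← Finset.sum_add_distrib, Finset.mul_sum]
    refine Finset.sum_le_sum fun b _ => ?_
    rw [← Finset.sum_add_distrib, Finset.mul_sum]
    refine Finset.sum_le_sum fun c _ => ?_
    split_ifs with h4
    · obtain ⟨-, k1, k2, k3, -, k5, k6, k7, k8, k9⟩ := h4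
      have h5 := LY_diff (S := S) hdeg hg2 hN k1 k2 k3 k5 k6 k7 k8 k9
      have h6 := hg1 b c
      have h7 : (g b - g c) * LY G g S (insert s(a, b) N) +
          (g c - g b) * LY G g S (insert s(a, c) N) =
          (g b - g c) * (LY G g S (insert s(a, b) N) - LY G g S (insert s(a, c) N)) := by ring
      rw [h7]
      refine (le_abs_self _).trans ?_
      rw [abs_mul]
      have h8 := abs_nonneg (g b - g c)
      have h9 := abs_nonneg (LY G g S (insert s(a, b) N) - LY G g S (insert s(a, c) N))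
      calc |g b - g c| * |LY G g S (insert s(a, b) N) - LY G g S (insert s(a, c) N)|
          ≤ (g b - g c) ^ 2 * (10 * r) := by
            refine mul_le_mul h6 h5 h9 (by positivity)
        _ = 10 * r * (g b - g c) ^ 2 := by ring
    · rw [add_zero, mul_zero]
  -- Cauchy-Schwarz
  have h3 : A1 ^ 2 ≤ B * A2 := by
    have h4 := Finset.sum_mul_sq_le_sq_mul_sq (mats G (i + 1))
      (fun N => if S ⊆ free N then YY g S N else 0) (fun N => if S ⊆ free N then LY G g S N else 0)
    have e1 : ∑ N ∈ mats G (i + 1), (if S ⊆ free N then YY g S N else 0) *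
        (if S ⊆ free N then LY G g S N else 0) = A1 := by
      rw [hA1]
      refine Finset.sum_congr rfl fun N _ => ?_
      split_ifs
      · ring
      · ring
    have e2 : ∑ N ∈ mats G (i + 1), (if S ⊆ free N then YY g S N else 0) ^ 2 = B := by
      rw [hB]
      refine Finset.sum_congr rfl fun N _ => ?_
      split_ifs
      · rfl
      · ring
    have e3 : ∑ N ∈ mats G (i + 1), (if S ⊆ free N then LY G g S N else 0) ^ 2 = A2 := by
      rw [hA2]
      refine Finset.sum_congr rfl fun N _ => ?_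
      split_ifs
      · ring
      · ring
    rw [e1, e2, e3] at h4
    exact h4
  have h4 : E ≤ 20 * r * B := by
    rcases eq_or_lt_of_le hE0 with h5 | h5
    · rw [← h5]; positivity
    · have h6 : E ^ 2 ≤ 4 * (B * A2) := by nlinarith
      have h7 : 4 * (B * A2) ≤ E * (20 * r * B) := by nlinarith
      have h8 : E * E ≤ E * (20 * r * B) := by nlinarith
      exact le_of_mul_le_mul_left h8 h5
  rw [← hB]
  refine le_trans ?_ h4
  rw [hE]
  refine Finset.sum_le_sum fun N _ => Finset.sum_le_sum fun a _ => Finset.sum_le_sum fun b _ =>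
    Finset.sum_le_sum fun c _ => ?_
  by_cases h5 : TT G S N a b c
  · rw [if_pos h5]
    split_ifs with h6
    · exact hg0 b c h6.2
    · positivity
  · rw [if_neg h5, if_neg fun h => h5 h.1]

open scoped Classical in
/-- The slide inequality for weighted sums. -/
theorem slide_WS {r : ℕ} (hdeg : ∀ v : V, (univ.filter fun u => G.Adj v u).card ≤ r)
    {g : V → ℝ} (hg : ∀ z, g z = -1 ∨ g z = 0 ∨ g z = 1) (S : Finset V) {x : ℝ} (hx : 0 ≤ x) :
    x * WS G x (fun N => ∑ a, ∑ b, ∑ c, (if TT G S N a b c ∧ g b ≠ g c then (1 : ℝ) else 0)) ≤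
      20 * r * WS G x (fun N => if S ⊆ free N then (∑ z ∈ free N \ S, g z) ^ 2 else 0) := by
  rw [WS_levels x _ (K := Fintype.card V + 1) (by omega),
    WS_levels x _ (K := Fintype.card V + 2) (by omega), Finset.sum_range_succ' _ (Fintype.card V + 1),
    Finset.mul_sum]
  have h0 : 0 ≤ x ^ 0 * ∑ N ∈ mats G 0, (if S ⊆ free N then (∑ z ∈ free N \ S, g z) ^ 2 else 0) := by
    refine mul_nonneg (pow_nonneg hx _) (Finset.sum_nonneg fun N _ => ?_)
    split_ifs
    · positivity
    · exact le_rfl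
  have h1 : ∀ i ∈ range (Fintype.card V + 1), x * (x ^ i * ∑ N ∈ mats G i, ∑ a, ∑ b, ∑ c,
      (if TT G S N a b c ∧ g b ≠ g c then (1 : ℝ) else 0)) ≤
      20 * r * (x ^ (i + 1) * ∑ N ∈ mats G (i + 1),
        (if S ⊆ free N then (∑ z ∈ free N \ S, g z) ^ 2 else 0)) := by
    intro i _
    have h2 := slide_level hdeg hg S i
    have h3 := mul_le_mul_of_nonneg_left h2 (pow_nonneg hx (i + 1))
    calc _ = x ^ (i + 1) * ∑ N ∈ mats G i, ∑ a, ∑ b, ∑ c,
          (if TT G S N a b c ∧ g b ≠ g c then (1 : ℝ) else 0) := by rw [pow_succ]; ring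
      _ ≤ _ := h3
      _ = _ := by unfold YY; ring
  refine (Finset.sum_le_sum h1).trans ?_
  rw [← Finset.mul_sum]
  have hr0 : (0 : ℝ) ≤ 20 * r := by positivity
  exact mul_le_mul_of_nonneg_left (by linarith) hr0

open scoped Classical in
/-- The slide inequality with the weights of sets of uncovered vertices. -/
theorem slide {r : ℕ} (hdeg : ∀ v : V, (univ.filter fun u => G.Adj v u).card ≤ r)
    {g : V → ℝ} (hg : ∀ z, g z = -1 ∨ g z = 0 ∨ g z = 1) (S : Finset V) {x : ℝ} (hx : 0 ≤ x) :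
    x * ∑ a, ∑ b, ∑ c, (if a ∉ S ∧ b ∉ S ∧ c ∉ S ∧ G.Adj a b ∧ G.Adj a c ∧ b ≠ c ∧ g b ≠ g c then
        ZS G x (S ∪ {a, b, c}) else 0) ≤
      20 * r * WS G x (fun N => if S ⊆ free N then (∑ z ∈ free N \ S, g z) ^ 2 else 0) := by
  refine le_trans (le_of_eq ?_) (slide_WS hdeg hg S hx)
  congr 1
  rw [WS_sum]
  refine Finset.sum_congr rfl fun a _ => ?_
  rw [WS_sum]
  refine Finset.sum_congr rfl fun b _ => ?_
  rw [WS_sum]
  refine Finset.sum_congr rfl fun c _ => ?_
  split_ifs with h
  · unfold ZS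
    refine WS_congr x fun N _ => ?_
    obtain ⟨h1, h2, h3, h4, h5, h6, h7⟩ := h
    by_cases h8 : S ∪ {a, b, c} ⊆ free N
    · rw [if_pos h8, if_pos]
      refine ⟨⟨?_, h8 (by simp), h8 (by simp), h8 (by simp), h1, h2, h3, h4, h5, h6⟩, h7⟩
      exact Finset.union_subset_left h8
    · rw [if_neg h8, if_neg]
      rintro ⟨⟨k1, k2, k3, k4, -⟩, -⟩
      refine h8 (Finset.union_subset k1 fun v hv => ?_)
      rw [Finset.mem_insert, Finset.mem_insert, Finset.mem_singleton] at hv
      rcases hv with rfl | rfl | rfl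
      · exact k2
      · exact k3
      · exact k4
  · unfold WS
    symm
    refine Finset.sum_eq_zero fun N _ => ?_
    dsimp only
    rw [if_neg, mul_zero]
    rintro ⟨⟨-, -, -, -, h1, h2, h3, h4, h5, h6⟩, h7⟩
    exact h ⟨h1, h2, h3, h4, h5, h6, h7⟩

open scoped Classical in
/-- The slide inequality for the difference of the numbers of uncovered neighbours of `u` and `v`:
`b` is adjacent to `u` and not to `v`, `c` is not adjacent to `u`. -/
theorem slide_D {r : ℕ} (hdeg : ∀ v : V, (univ.filter fun u => G.Adj v u).card ≤ r)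
    {u v : V} (huv : G.Adj u v) {x : ℝ} (hx : 0 ≤ x) :
    x * ∑ b, ∑ a, ∑ c, (if G.Adj u b ∧ ¬ G.Adj v b ∧ b ≠ v ∧ G.Adj b a ∧ a ≠ u ∧ G.Adj a c ∧
        ¬ G.Adj u c ∧ c ≠ u then ZS G x ({u, v} ∪ {a, b, c}) else 0) ≤
      20 * r * WS G x (fun N => if {u, v} ⊆ free N then
        (((D G N u : ℕ) : ℝ) - (D G N v : ℕ)) ^ 2 else 0) := by
  obtain ⟨g, hgd⟩ : ∃ g : V → ℝ, ∀ z, g z = (if G.Adj u z then (1 : ℝ) else 0) -
      (if G.Adj v z then (1 : ℝ) else 0) := ⟨_, fun _ => rfl⟩
  have hg : ∀ z, g z = -1 ∨ g z = 0 ∨ g z = 1 := by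
    intro z
    rw [hgd]
    split_ifs <;> norm_num
  have h1 := slide hdeg hg {u, v} hx
  have h2 : WS G x (fun N => if {u, v} ⊆ free N then (∑ z ∈ free N \ {u, v}, g z) ^ 2 else 0) =
      WS G x (fun N => if {u, v} ⊆ free N then
        (((D G N u : ℕ) : ℝ) - (D G N v : ℕ)) ^ 2 else 0) := by
    refine WS_congr x fun N _ => ?_
    split_ifs with h3
    · have hS := Finset.sum_sdiff (f := g) h3
      rw [Finset.sum_pair huv.ne] at hS
      have e1 : ∑ z ∈ free N, g z = ((D G N u : ℕ) : ℝ) - (D G N v : ℕ) := by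
        simp only [hgd]
        rw [Finset.sum_sub_distrib, Finset.sum_boole, Finset.sum_boole]
        rfl
      have e2 : g u = -1 := by
        rw [hgd, if_neg (G.loopless.irrefl u), if_pos huv.symm]
        ring
      have e3 : g v = 1 := by
        rw [hgd, if_neg (G.loopless.irrefl v), if_pos huv]
        ring
      have e4 : ∑ z ∈ free N \ {u, v}, g z = ((D G N u : ℕ) : ℝ) - (D G N v : ℕ) := by
        rw [← e1]; linarith
      rw [e4]
    · rfl
  rw [h2] at h1
  refine le_trans ?_ h1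
  refine mul_le_mul_of_nonneg_left ?_ hx
  rw [Finset.sum_comm]
  refine Finset.sum_le_sum fun a _ => Finset.sum_le_sum fun b _ => Finset.sum_le_sum fun c _ => ?_
  by_cases h3 : G.Adj u b ∧ ¬ G.Adj v b ∧ b ≠ v ∧ G.Adj b a ∧ a ≠ u ∧ G.Adj a c ∧ ¬ G.Adj u c ∧ c ≠ u
  · obtain ⟨k1, k2, k3, k4, k5, k6, k7, k8⟩ := h3
    rw [if_pos ⟨k1, k2, k3, k4, k5, k6, k7, k8⟩, if_pos]
    have k9 : c ≠ v := fun h => k7 (h ▸ huv)
    have k10 : a ≠ v := fun h => k2 (h ▸ k4.symm)
    have k11 : b ≠ u := k1.ne.symm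
    refine ⟨?_, ?_, ?_, k4.symm, k6, fun h => k7 (h ▸ k1), ?_⟩
    · simp only [Finset.mem_insert, Finset.mem_singleton, not_or]
      exact ⟨k5, k10⟩
    · simp only [Finset.mem_insert, Finset.mem_singleton, not_or]
      exact ⟨k11, k3⟩
    · simp only [Finset.mem_insert, Finset.mem_singleton, not_or]
      exact ⟨k8, k9⟩
    · rw [hgd, hgd, if_pos k1, if_neg k2, if_neg k7]
      split_ifs <;> norm_num
  · rw [if_neg h3]
    split_ifs
    · unfold ZS
      refine WS_nonneg hx fun N _ => ?_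
      split_ifs
      · norm_num
      · exact le_rfl
    · exact le_rfl

end

end Pool.Agent.Lib.MP_eeed5c_coW
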