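import Pool.Agent.Lib.MP_eeed5c_co_W.WB

/-!
# The lower bound of the derivative of the gap
-/

set_option autoImplicit false

namespace Pool.Agent.Lib.MP_eeed5c_coW

open Finset Pool.Agent.Lib.MP_eeed5c_co Pool.Agent.Lib.MP_eeed5c_coT Pool.Agent.Lib.MP_eeed5c_coU
  Pool.Agent.Lib.MP_eeed5c_coN

section

variable {V : Type*} [Fintype V] {G : SimpleGraph V}

theorem sqq_nonneg (G : SimpleGraph V) (R : ℕ) {x : ℝ} (hx : 0 ≤ x) (N : Finset (Sym2 V)) :
    0 ≤ sqq G R x N := by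
  classical
  unfold sqq
  refine Finset.sum_nonneg fun u _ => Finset.sum_nonneg fun v _ => ?_
  split_ifs
  · have := LL_nonneg R (max (D G N u) (D G N v) - 2) hx
    positivity
  · exact le_rfl

theorem trr_nonneg (G : SimpleGraph V) (R : ℕ) {x : ℝ} (hx : 0 ≤ x) (N : Finset (Sym2 V)) :
    0 ≤ trr G R x N := by
  classical
  unfold trr
  refine Finset.sum_nonneg fun v _ => ?_
  split_ifs
  · have := LL_nonneg R (D G N v - 2) hx
    refine mul_nonneg (Finset.sum_nonneg fun a _ => Nat.cast_nonneg _) this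
  · exact le_rfl

private theorem WC_D (N : Finset (Sym2 V)) (u : V) : D G N u ≤ (free N).card := by
  classical
  unfold D nb
  exact Finset.card_le_card (Finset.filter_subset _ _)

theorem sqq_ge {R : ℕ} {x Λ : ℝ} (hx : 0 ≤ x) (N : Finset (Sym2 V))
    (hΛ : Λ ≤ LL R (free N).card x) :
    Λ * ((∑ u ∈ free N, ∑ v ∈ nb G N u, (((D G N u : ℕ) : ℝ) - (D G N v : ℕ)) ^ 2) / 2) ≤
      sqq G R x N := by
  classical
  unfold sqq
  have e : ∀ (h : V → V → ℝ), ∑ u, ∑ v, (if u ∈ free N ∧ v ∈ free N ∧ G.Adj u v then h u v else 0) =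
      ∑ u ∈ free N, ∑ v ∈ nb G N u, h u v := by
    intro h
    have e1 : ∀ u, ∑ v, (if u ∈ free N ∧ v ∈ free N ∧ G.Adj u v then h u v else 0) =
        if u ∈ free N then ∑ v ∈ nb G N u, h u v else 0 := by
      intro u
      split_ifs with hu
      · unfold nb
        rw [← Finset.sum_filter]
        refine Finset.sum_congr ?_ fun _ _ => rfl
        ext v
        simp only [Finset.mem_filter, Finset.mem_univ, true_and]
        tauto
      · exact Finset.sum_eq_zero fun v _ => if_neg fun h => hu h.1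
    simp only [e1]
    rw [← Finset.sum_filter]
    refine Finset.sum_congr ?_ fun _ _ => rfl
    ext v
    simp
  rw [e, mul_div_assoc', Finset.mul_sum, Finset.sum_div]
  refine Finset.sum_le_sum fun u _ => ?_
  rw [Finset.mul_sum, Finset.sum_div]
  refine Finset.sum_le_sum fun v _ => ?_
  have h1 : LL R (free N).card x ≤ LL R (max (D G N u) (D G N v) - 2) x := by
    refine LL_antitone R hx ?_
    have h2 := WC_D (G := G) N u
    have h3 := WC_D (G := G) N v
    omega
  have h4 := mul_le_mul_of_nonneg_left (hΛ.trans h1)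
    (show 0 ≤ (1 / 2 : ℝ) * (((D G N u : ℕ) : ℝ) - (D G N v : ℕ)) ^ 2 by positivity)
  refine le_trans (le_of_eq ?_) h4
  ring

open scoped Classical in
theorem trr_ge {R : ℕ} {x Λ : ℝ} (hx : 0 ≤ x) (N : Finset (Sym2 V))
    (hΛ : Λ ≤ LL R (free N).card x) :
    Λ * (∑ v ∈ free N, ∑ a ∈ nb G N v, (((nb G N v).filter (fun b => G.Adj a b)).card : ℝ)) ≤
      trr G R x N := by
  unfold trr
  rw [← Finset.sum_filter, Finset.mul_sum]
  have e : (univ.filter fun v => v ∈ free N) = free N := by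
    ext v
    simp
  rw [e]
  refine Finset.sum_le_sum fun v _ => ?_
  have h1 : LL R (free N).card x ≤ LL R (D G N v - 2) x := by
    refine LL_antitone R hx ?_
    have h2 := WC_D (G := G) N v
    omega
  rw [mul_comm]
  exact mul_le_mul_of_nonneg_left (hΛ.trans h1)
    (Finset.sum_nonneg fun a _ => Nat.cast_nonneg _)

/-- The weights for few holes. -/
theorem LL_big {q r c : ℕ} {x y : ℝ} (hq : 1 ≤ q) (hxy : r * x = y)
    (hy : (32 * (q : ℝ)) ^ 2 ≤ y) (hry : 100 * y ≤ r) (hc : (c : ℝ) * √y ≤ 8 * q * r) :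
    Real.exp (-(154 * (q : ℝ))) / (54 * √y ^ 3) * (Lp r).eval x ≤ LL (r - 1) c x := by
  have hq1 : (1 : ℝ) ≤ q := by exact_mod_cast hq
  have hy1024 : 1024 ≤ y := by nlinarith
  have hr : (102400 : ℝ) ≤ r := by linarith
  have hr0 : (0 : ℝ) < r := by linarith
  have hx : 0 < x := by
    by_contra hcon
    push Not at hcon
    have := mul_nonneg_of_nonpos_of_nonpos hcon (show -(r : ℝ) ≤ 0 by linarith)
    linarith
  have hx1 : x ≤ 1 := by
    by_contra hcon
    push Not at hcon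
    have := mul_le_mul_of_nonneg_left hcon.le hr0.le
    linarith
  have hrN : 102400 ≤ r := by exact_mod_cast hr
  obtain ⟨R, hR⟩ : ∃ R, r = R + 1 := ⟨r - 1, by omega⟩
  have hRr : (R : ℝ) + 1 = r := by rw [hR]; push_cast; ring
  obtain ⟨w, hw⟩ : ∃ w, w = √y := ⟨_, rfl⟩
  have hw2 : w ^ 2 = y := by rw [hw]; exact Real.sq_sqrt (by linarith)
  have hw0 : 0 ≤ w := by rw [hw]; exact Real.sqrt_nonneg _
  have hwq : 32 * (q : ℝ) ≤ w := by
    rw [hw]
    exact Real.le_sqrt_of_sq_le hy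
  rw [← hw] at hc ⊢
  have hw32 : 32 ≤ w := by linarith
  have hwr : 3200 * w ≤ r := by
    have : 32 * w ≤ y := by rw [← hw2]; nlinarith
    linarith
  -- the number of terms
  obtain ⟨I, hI⟩ : ∃ I : ℕ, I = ⌈4 * w⌉₊ := ⟨_, rfl⟩
  have hI1 : 4 * w ≤ I := by rw [hI]; exact Nat.le_ceil _
  have hI2 : (I : ℝ) ≤ 4 * w + 1 := by
    rw [hI]
    exact (Nat.ceil_lt_add_one (by linarith)).le
  have hIp : 0 < I := by
    have : (0 : ℝ) < I := by linarith
    exact_mod_cast this
  have hcr : (c : ℝ) ≤ r / 4 := by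
    have h1 : (c : ℝ) * (32 * q) ≤ 8 * q * r :=
      (mul_le_mul_of_nonneg_left hwq (Nat.cast_nonneg c)).trans hc
    have h2 : (q : ℝ) * (32 * c) ≤ q * (8 * r) := by linarith
    have h3 := le_of_mul_le_mul_left h2 (by linarith)
    linarith
  have hIr : (I : ℝ) ≤ r / 400 := by linarith
  have hRI : 99 / 100 * (r : ℝ) ≤ (R : ℝ) - I := by linarith
  have hcI : c + I ≤ R := by
    have : (c : ℝ) + I ≤ R := by linarith
    exact_mod_cast this
  obtain ⟨s, hs⟩ : ∃ s : ℝ, s = c / ((R : ℝ) - I) := ⟨_, rfl⟩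
  have hRI0 : 0 < (R : ℝ) - I := by linarith
  have hc0 : (0 : ℝ) ≤ c := Nat.cast_nonneg c
  have hs0 : 0 ≤ s := by rw [hs]; positivity
  have hsc : s * ((R : ℝ) - I) = c := by rw [hs]; exact div_mul_cancel₀ _ hRI0.ne'
  have hsw : s * w ≤ 81 / 10 * q := by
    have h1 : s * w * (99 / 100 * r) ≤ s * w * ((R : ℝ) - I) :=
      mul_le_mul_of_nonneg_left hRI (mul_nonneg hs0 hw0)
    have h2 : s * w * ((R : ℝ) - I) = c * w := by rw [← hsc]; ring
    have h3 : (99 / 100 * r) * (s * w) ≤ (99 / 100 * r) * (81 / 10 * q) := by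
      have h4 : (0 : ℝ) ≤ q * r := by positivity
      linarith
    exact le_of_mul_le_mul_left h3 (by linarith)
  have hs2 : s ≤ 1 / 2 := by
    have h1 : s * (32 * q) ≤ 81 / 10 * q := (mul_le_mul_of_nonneg_left hwq hs0).trans hsw
    have h2 : (q : ℝ) * (32 * s) ≤ q * (81 / 10) := by linarith
    have h3 := le_of_mul_le_mul_left h2 (by linarith)
    linarith
  have hL := LL_lower (R := R) (a := c) (I := I) (x := x) (z := 1 - s) (by omega) hx hx1
    (by
      have h1 : √((R : ℝ) * x) ≤ w := by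
        rw [hw]
        refine Real.sqrt_le_sqrt ?_
        rw [← hxy, ← hRr]
        linarith
      linarith) hIp hcI (by linarith) (by linarith) (by
      have : (1 - s) * ((R : ℝ) - I) = (R : ℝ) - I - s * ((R : ℝ) - I) := by ring
      rw [this, hsc])
  have hexp : Real.exp (-(66 * (q : ℝ))) ≤ (1 - s) ^ I := by
    have h1 : Real.exp (-(2 * s)) ≤ 1 - s := by
      have h2 : 1 + 2 * s ≤ Real.exp (2 * s) := by linarith [Real.add_one_le_exp (2 * s)]
      rw [Real.exp_neg]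
      have h3 : 1 ≤ (1 - s) * Real.exp (2 * s) := by
        have h4 := mul_le_mul_of_nonneg_left h2 (show 0 ≤ 1 - s by linarith)
        have h4' : 0 ≤ s * (1 - 2 * s) := mul_nonneg hs0 (by linarith)
        have h4'' : (1 - s) * (1 + 2 * s) = 1 + s * (1 - 2 * s) := by ring
        linarith
      rw [inv_le_iff_one_le_mul₀ (Real.exp_pos _)]
      exact h3
    have h5 : Real.exp (-(2 * s)) ^ I ≤ (1 - s) ^ I := pow_le_pow_left₀ (Real.exp_pos _).le h1 I
    refine le_trans ?_ h5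
    rw [← Real.exp_nat_mul]
    apply Real.exp_le_exp.2
    have h6 : (I : ℝ) * s ≤ (4 * w + 1) * s := mul_le_mul_of_nonneg_right hI2 hs0
    have h7 : (I : ℝ) * -(2 * s) = -(2 * (I * s)) := by ring
    rw [h7]
    have h8 : (4 * w + 1) * s = 4 * (s * w) + s := by ring
    linarith
  have hk := kp_ev_pos R hx.le
  have hLp := Lp_kp (R := R) (x := x) (y := y) hx.le hx1 (by rw [hRr]; exact hxy) (by linarith)
  rw [← hw, ← hR] at hLp
  have e1 : r - 1 = R := by omega
  rw [e1]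
  have hw3 : 0 < w ^ 3 := by positivity
  have h154 : Real.exp (-(154 * (q : ℝ))) ≤ Real.exp (-(66 * (q : ℝ))) :=
    Real.exp_le_exp.2 (by linarith)
  have hE := Real.exp_pos (-(154 * (q : ℝ)))
  calc Real.exp (-(154 * (q : ℝ))) / (54 * w ^ 3) * (Lp r).eval x
      ≤ Real.exp (-(154 * (q : ℝ))) / (54 * w ^ 3) * (5 * w ^ 3 * (kp R).eval x) :=
        mul_le_mul_of_nonneg_left hLp (by positivity)
    _ = Real.exp (-(154 * (q : ℝ))) * ((kp R).eval x * (5 / 54)) := by
        field_simp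
    _ ≤ Real.exp (-(154 * (q : ℝ))) * ((kp R).eval x / 2) :=
        mul_le_mul_of_nonneg_left (by linarith) hE.le
    _ ≤ Real.exp (-(66 * (q : ℝ))) * ((kp R).eval x / 2) :=
        mul_le_mul_of_nonneg_right h154 (by linarith)
    _ ≤ (1 - s) ^ I * ((kp R).eval x / 2) := mul_le_mul_of_nonneg_right hexp (by linarith)
    _ ≤ LL R c x := hL

open scoped Classical in
theorem W_lower {q r : ℕ} {x y : ℝ} (hq : 1 ≤ q) (hr : 2 ≤ r)
    (hV : Fintype.card V = 2 * (q * r)) (hreg : Reg G r) (hxy : r * x = y)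
    (hy : (32 * (q : ℝ)) ^ 2 ≤ y) (hry : 100 * y ≤ r) :
    x ^ 3 * (Real.exp (-(154 * (q : ℝ))) / (54 * √y ^ 3)) *
      WS G x (fun N => if ((free N).card : ℝ) * √y ≤ 8 * q * r then
        (∑ u ∈ free N, ∑ v ∈ nb G N u, (((D G N u : ℕ) : ℝ) - (D G N v : ℕ)) ^ 2) / 4 +
        (∑ v ∈ free N, ∑ a ∈ nb G N v,
          (((nb G N v).filter (fun b => G.Adj a b)).card : ℝ)) / 2 else 0) ≤
    x * (q * ((Lp r).derivative.eval x / (Lp r).eval x) -
      (mp G).derivative.eval x / (mp G).eval x) * (mp G).eval x := by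
  have hq1 : (1 : ℝ) ≤ q := by exact_mod_cast hq
  have hy1024 : 1024 ≤ y := by nlinarith
  have hr0 : (0 : ℝ) < r := by linarith
  have hx : 0 < x := by
    by_contra hcon
    push Not at hcon
    have := mul_nonneg_of_nonpos_of_nonpos hcon (show -(r : ℝ) ≤ 0 by linarith)
    linarith
  obtain ⟨R, hR⟩ : ∃ R, r = R + 1 := ⟨r - 1, by omega⟩
  have hRr : (R : ℝ) + 1 = r := by rw [hR]; push_cast; ring
  obtain ⟨κ, hκ⟩ : ∃ κ, κ = Real.exp (-(154 * (q : ℝ))) / (54 * √y ^ 3) := ⟨_, rfl⟩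
  obtain ⟨L, hL⟩ : ∃ L, L = (Lp r).eval x := ⟨_, rfl⟩
  obtain ⟨Z, hZ⟩ : ∃ Z, Z = (mp G).eval x := ⟨_, rfl⟩
  have hL0 : 0 < L := by
    have := Lp_ev_one r hx.le
    rw [hL]; linarith
  have hZ0 : 0 < Z := by
    have := mp_eval_pos (G := G) hx.le
    rw [hZ]; linarith
  have hlow : ((R : ℝ) + 1) * x ^ 2 * WS G x (fun N => sqq G R x N + trr G R x N) ≤
      2 * (Dp (R + 1) q G).eval x := Dp_lower (by rw [← hR]; exact hV) (by rw [← hR]; exact hreg) hx.le
  have hDp : (Dp (R + 1) q G).eval x = r * (L * (Z * (q * ((Lp r).derivative.eval x / L) -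
      (mp G).derivative.eval x / Z))) := by
    unfold Dp
    rw [← hR]
    simp only [Polynomial.eval_sub, Polynomial.eval_mul, Polynomial.eval_C]
    rw [← hL, ← hZ]
    field_simp
  rw [hDp, hRr] at hlow
  rw [← hκ, ← hL, ← hZ]
  have hW : WS G x (fun N => (2 * κ * L) * (if ((free N).card : ℝ) * √y ≤ 8 * q * r then
        (∑ u ∈ free N, ∑ v ∈ nb G N u, (((D G N u : ℕ) : ℝ) - (D G N v : ℕ)) ^ 2) / 4 +
        (∑ v ∈ free N, ∑ a ∈ nb G N v,
          (((nb G N v).filter (fun b => G.Adj a b)).card : ℝ)) / 2 else 0)) ≤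
      WS G x (fun N => sqq G R x N + trr G R x N) := by
    refine WS_mono hx.le fun N _ => ?_
    split_ifs with hc
    · have h1 : κ * L ≤ LL R (free N).card x := by
        have h2 := LL_big (q := q) (r := r) (c := (free N).card) hq hxy hy hry hc
        rw [← hκ, ← hL] at h2
        have e1 : r - 1 = R := by omega
        rwa [e1] at h2
      have h3 := sqq_ge (G := G) hx.le N h1
      have h4 := trr_ge (G := G) hx.le N h1
      linarith
    · rw [mul_zero]
      exact add_nonneg (sqq_nonneg G R hx.le N) (trr_nonneg G R hx.le N)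
  rw [WS_smul] at hW
  obtain ⟨S, hS⟩ : ∃ S, S = WS G x (fun N => (if ((free N).card : ℝ) * √y ≤ 8 * q * r then
        (∑ u ∈ free N, ∑ v ∈ nb G N u, (((D G N u : ℕ) : ℝ) - (D G N v : ℕ)) ^ 2) / 4 +
        (∑ v ∈ free N, ∑ a ∈ nb G N v,
          (((nb G N v).filter (fun b => G.Adj a b)).card : ℝ)) / 2 else 0)) := ⟨_, rfl⟩
  rw [← hS] at hW ⊢
  have h5 := mul_le_mul_of_nonneg_left hW (show 0 ≤ (r : ℝ) * x ^ 2 by positivity)
  have h6 := h5.trans hlow
  obtain ⟨F, hF⟩ : ∃ F, F = (q : ℝ) * ((Lp r).derivative.eval x / L) -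
      (mp G).derivative.eval x / Z := ⟨_, rfl⟩
  rw [← hF] at h6 ⊢
  have h7 : (2 * r * L) * (x ^ 2 * κ * S) ≤ (2 * r * L) * (F * Z) := by linarith
  have h8 := le_of_mul_le_mul_left h7 (by positivity)
  have h9 := mul_le_mul_of_nonneg_left h8 hx.le
  linarith

end

end Pool.Agent.Lib.MP_eeed5c_coW
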