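import Pool.Agent.Lib.MP_eeed5c_co_N.TB2
import Pool.Agent.Lib.MP_eeed5c_co_T.GA

/-!
# The numerator of the logarithmic derivative as a sum over matchings

`wx R x a` is the multiplier at a real point, `LL R a x` its differences divided by `x`.
`Dp_eval`: `2 Dp(x) = r x ∑ x^|N| WW(N)`; `Dp_lower`: the lower bound by squares and triangles.
-/

set_option autoImplicit false

namespace Pool.Agent.Lib.MP_eeed5c_coW

open Finset Pool.Agent.Lib.MP_eeed5c_co Pool.Agent.Lib.MP_eeed5c_coT Pool.Agent.Lib.MP_eeed5c_coU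
  Pool.Agent.Lib.MP_eeed5c_coN

/-- The multiplier at the point `x`. -/
noncomputable def wx (R : ℕ) (x : ℝ) (a : ℕ) : ℝ := (gp R (R - a)).eval x

/-- The differences of the multipliers. -/
noncomputable def LL (R a : ℕ) (x : ℝ) : ℝ :=
  ∑ i ∈ range (R - a), ((i : ℝ) + 1) * (((R - 1 - a).descFactorial i : ℕ) : ℝ) * x ^ i *
    (kp (R - 1 - i)).eval x

theorem kp_eval_nonneg (s : ℕ) {x : ℝ} (hx : 0 ≤ x) : 0 ≤ (kp s).eval x := by
  rw [Polynomial.eval_eq_sum_range]
  exact Finset.sum_nonneg fun i _ => mul_nonneg (NN_kp s i) (pow_nonneg hx i)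

theorem LL_nonneg (R a : ℕ) {x : ℝ} (hx : 0 ≤ x) : 0 ≤ LL R a x := by
  unfold LL
  refine Finset.sum_nonneg fun i _ => ?_
  have := kp_eval_nonneg (R - 1 - i) hx
  positivity

theorem LL_anti (R a : ℕ) {x : ℝ} (hx : 0 ≤ x) : LL R (a + 1) x ≤ LL R a x := by
  unfold LL
  have h1 : range (R - (a + 1)) ⊆ range (R - a) := by
    intro i hi
    rw [Finset.mem_range] at hi ⊢
    omega
  refine le_trans (Finset.sum_le_sum_of_subset_of_nonneg h1 fun i _ _ => ?_)
    (Finset.sum_le_sum fun i _ => ?_)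
  · have := kp_eval_nonneg (R - 1 - i) hx
    positivity
  · have h2 : (((R - 1 - (a + 1)).descFactorial i : ℕ) : ℝ) ≤ (((R - 1 - a).descFactorial i : ℕ) : ℝ) := by
      exact_mod_cast Nat.descFactorial_le i (by omega)
    have h3 := kp_eval_nonneg (R - 1 - i) hx
    have h4 : (0 : ℝ) ≤ (i : ℝ) + 1 := by positivity
    exact mul_le_mul_of_nonneg_right (mul_le_mul_of_nonneg_right (mul_le_mul_of_nonneg_left h2 h4)
      (pow_nonneg hx i)) h3

theorem LL_antitone (R : ℕ) {x : ℝ} (hx : 0 ≤ x) : Antitone fun a => LL R a x :=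
  antitone_nat_of_succ_le fun a => LL_anti R a hx

theorem gp_eval (R t : ℕ) (x : ℝ) : (gp R t).eval x =
    ∑ i ∈ range (t + 1), ((t.descFactorial i : ℕ) : ℝ) * x ^ i * (kp (R - i)).eval x := by
  unfold gp
  rw [Polynomial.eval_finsetSum]
  refine Finset.sum_congr rfl fun i _ => ?_
  rw [Polynomial.eval_mul, Polynomial.eval_mul, Polynomial.eval_C, Polynomial.eval_pow, Polynomial.eval_X]

private theorem WA_desc (t i : ℕ) : (((t + 1).descFactorial (i + 1) : ℕ) : ℝ) =
    ((t.descFactorial (i + 1) : ℕ) : ℝ) + ((i : ℝ) + 1) * ((t.descFactorial i : ℕ) : ℝ) := by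
  rw [Nat.succ_descFactorial_succ, Nat.descFactorial_succ]
  rcases le_or_gt i t with h | h
  · push_cast [Nat.cast_sub h]
    ring
  · rw [Nat.descFactorial_eq_zero_iff_lt.2 h]
    simp

theorem wx_sub {R a : ℕ} (ha : a + 1 ≤ R) (x : ℝ) :
    wx R x a - wx R x (a + 1) = x * LL R a x := by
  obtain ⟨t, ht⟩ : ∃ t, R - a = t + 1 := ⟨R - a - 1, by omega⟩
  have ht1 : R - (a + 1) = t := by omega
  have ht2 : R - 1 - a = t := by omega
  unfold wx LL
  rw [ht, ht1, ht2, gp_eval, gp_eval]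
  have hz : ((t.descFactorial (t + 1) : ℕ) : ℝ) = 0 := by
    rw [Nat.descFactorial_eq_zero_iff_lt.2 (Nat.lt_succ_self t)]
    simp
  have h0 : ∑ i ∈ range (t + 1), ((t.descFactorial i : ℕ) : ℝ) * x ^ i * (kp (R - i)).eval x =
      ∑ i ∈ range (t + 1 + 1), ((t.descFactorial i : ℕ) : ℝ) * x ^ i * (kp (R - i)).eval x := by
    rw [Finset.sum_range_succ _ (t + 1), hz]
    ring
  rw [h0, ← Finset.sum_sub_distrib, Finset.sum_range_succ', Finset.mul_sum]
  have h2 : ∀ i, R - (i + 1) = R - 1 - i := fun i => by omega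
  have h3 : ∑ i ∈ range (t + 1), ((((t + 1).descFactorial (i + 1) : ℕ) : ℝ) * x ^ (i + 1) *
      (kp (R - (i + 1))).eval x - ((t.descFactorial (i + 1) : ℕ) : ℝ) * x ^ (i + 1) *
      (kp (R - (i + 1))).eval x) =
      ∑ i ∈ range (t + 1), x * (((i : ℝ) + 1) * ((t.descFactorial i : ℕ) : ℝ) * x ^ i *
        (kp (R - 1 - i)).eval x) := by
    refine Finset.sum_congr rfl fun i _ => ?_
    rw [WA_desc, h2]
    ring
  rw [h3]
  simp only [Nat.descFactorial_zero, Nat.cast_one, pow_zero, sub_self, add_zero]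

section

variable {V : Type*} [Fintype V] {G : SimpleGraph V}

theorem phi1_sum {ι : Type*} (s : Finset ι) (w : ι → ℕ → ℝ) (c : ι → ℝ) (u v : V)
    (N : Finset (Sym2 V)) : phi1 G (fun a => ∑ j ∈ s, c j * w j a) u v N =
      ∑ j ∈ s, c j * phi1 G (w j) u v N := by
  unfold phi1
  split_ifs
  · rw [← Finset.sum_sub_distrib, Finset.mul_sum]
    exact Finset.sum_congr rfl fun j _ => by ring
  · simp

theorem phi2_sum {ι : Type*} (s : Finset ι) (w : ι → ℕ → ℝ) (c : ι → ℝ) (v : V)
    (N : Finset (Sym2 V)) : phi2 G (fun a => ∑ j ∈ s, c j * w j a) v N =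
      ∑ j ∈ s, c j * phi2 G (w j) v N := by
  unfold phi2
  split_ifs
  · rw [← Finset.sum_sub_distrib, Finset.mul_sum]
    exact Finset.sum_congr rfl fun j _ => by ring
  · simp

theorem WW_sum {ι : Type*} (s : Finset ι) (w : ι → ℕ → ℝ) (c : ι → ℝ)
    (N : Finset (Sym2 V)) : WW G (fun a => ∑ j ∈ s, c j * w j a) N =
      ∑ j ∈ s, c j * WW G (w j) N := by
  unfold WW
  simp only [phi1_sum, phi2_sum]
  have h1 : ∀ u : V, ∑ v : V, ∑ j ∈ s, c j * phi1 G (w j) u v N =
      ∑ j ∈ s, c j * ∑ v : V, phi1 G (w j) u v N := by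
    intro u
    rw [Finset.sum_comm]
    exact Finset.sum_congr rfl fun j _ => by rw [Finset.mul_sum]
  have h2 : ∑ u : V, ∑ v : V, ∑ j ∈ s, c j * phi1 G (w j) u v N =
      ∑ j ∈ s, c j * ∑ u : V, ∑ v : V, phi1 G (w j) u v N := by
    simp only [h1]
    rw [Finset.sum_comm]
    exact Finset.sum_congr rfl fun j _ => by rw [Finset.mul_sum]
  have h3 : ∑ v : V, ∑ j ∈ s, c j * phi2 G (w j) v N =
      ∑ j ∈ s, c j * ∑ v : V, phi2 G (w j) v N := by
    rw [Finset.sum_comm]
    exact Finset.sum_congr rfl fun j _ => by rw [Finset.mul_sum]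
  rw [h2, h3, ← Finset.sum_add_distrib]
  exact Finset.sum_congr rfl fun j _ => by ring

theorem wx_eq (R : ℕ) (x : ℝ) (a : ℕ) : wx R x a = ∑ j ∈ range (R + 1), x ^ j * ww R j a := by
  unfold wx ww
  rw [Polynomial.eval_eq_sum_range' (n := R + 1)]
  · exact Finset.sum_congr rfl fun j _ => by ring
  · rw [Nat.lt_succ_iff, Polynomial.natDegree_le_iff_coeff_eq_zero]
    intro j hj
    exact gp_coeff_zero (Nat.sub_le R a) hj

/-- The generating polynomial of the sums of local quantities. -/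
private noncomputable def WA_P (R : ℕ) (G : SimpleGraph V) : Polynomial ℝ :=
  ∑ i ∈ range (Fintype.card V + 1), ∑ j ∈ range (R + 1),
    Polynomial.monomial (i + j) (∑ N ∈ mats G i, WW G (ww R j) N)

private theorem WA_coeff (R : ℕ) (G : SimpleGraph V) (k : ℕ) : (WA_P R G).coeff k =
    ∑ p ∈ antidiagonal k, ∑ N ∈ mats G p.1, WW G (ww R p.2) N := by
  unfold WA_P
  rw [Polynomial.finsetSum_coeff]
  simp only [Polynomial.finsetSum_coeff, Polynomial.coeff_monomial]
  rw [← Finset.sum_product', ← Finset.sum_filter]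
  refine Finset.sum_subset_zero_on_sdiff ?_ ?_ ?_
  · intro p hp
    rw [Finset.mem_filter] at hp
    rw [HasAntidiagonal.mem_antidiagonal]
    exact hp.2
  · intro p hp
    rw [Finset.mem_sdiff, HasAntidiagonal.mem_antidiagonal, Finset.mem_filter, Finset.mem_product,
      Finset.mem_range, Finset.mem_range] at hp
    have h1 : ¬ (p.1 < Fintype.card V + 1 ∧ p.2 < R + 1) := fun h => hp.2 ⟨h, hp.1⟩
    rcases lt_or_ge p.1 (Fintype.card V + 1) with h2 | h2
    · have h3 : R < p.2 := by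
        by_contra h4
        exact h1 ⟨h2, by omega⟩
      refine Finset.sum_eq_zero fun N _ => ?_
      have h5 : ww R p.2 = fun _ => 0 := by
        funext a
        exact ww_zero h3
      rw [h5]
      unfold WW phi1 phi2
      simp
    · have h3 : mats G p.1 = ∅ := by
        rw [← Finset.card_eq_zero]
        exact card_mats_eq_zero (by omega)
      rw [h3, Finset.sum_empty]
  · intro p _
    rfl

/-- `2 Dp(x) = r x ∑ x^|N| WW(N)`. -/
theorem Dp_eval {q R : ℕ} (hV : Fintype.card V = 2 * (q * (R + 1))) (hreg : Reg G (R + 1)) (x : ℝ) :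
    2 * (Dp (R + 1) q G).eval x = ((R : ℝ) + 1) * x * WS G x (fun N => WW G (wx R x) N) := by
  have h1 : Polynomial.C 2 * Dp (R + 1) q G =
      Polynomial.C ((R : ℝ) + 1) * (Polynomial.X * WA_P R G) := by
    ext k
    rw [Polynomial.coeff_C_mul, Polynomial.coeff_C_mul]
    rcases k with _ | k
    · rw [Dp_coeff_zero hV hreg, Polynomial.coeff_X_mul_zero]
      simp
    · rw [Dp_coeff hV hreg k, Polynomial.coeff_X_mul, WA_coeff]
  have h2 := congrArg (fun P => Polynomial.eval x P) h1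
  simp only [Polynomial.eval_mul, Polynomial.eval_C, Polynomial.eval_X] at h2
  rw [h2, mul_assoc]
  congr 2
  unfold WA_P
  simp only [Polynomial.eval_finsetSum, Polynomial.eval_monomial]
  have e1 : (fun N : Finset (Sym2 V) => WW G (wx R x) N) =
      fun N => ∑ j ∈ range (R + 1), x ^ j * WW G (ww R j) N := by
    funext N
    rw [← WW_sum]
    congr 1
    funext a
    exact wx_eq R x a
  rw [e1, WS_levels x _ (K := Fintype.card V + 1) (by omega)]
  refine Finset.sum_congr rfl fun i _ => ?_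
  rw [Finset.sum_comm, Finset.mul_sum]
  refine Finset.sum_congr rfl fun j _ => ?_
  rw [← Finset.mul_sum, pow_add]
  ring

theorem wx_gap {R a b : ℕ} (hab : a ≤ b) (hb : b ≤ R) {x : ℝ} (hx : 0 ≤ x) :
    ((b : ℝ) - a) * (x * LL R (b - 1) x) ≤ wx R x a - wx R x b := by
  obtain ⟨d, rfl⟩ := Nat.exists_eq_add_of_le hab
  clear hab
  have key : ∀ e : ℕ, e ≤ d → (e : ℝ) * (x * LL R (a + d - 1) x) ≤ wx R x (a + d - e) - wx R x (a + d) := by
    intro e
    induction e with
    | zero => intro _; simp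
    | succ e ih =>
      intro he
      have h1 := ih (by omega)
      have h2 : a + d - e = a + d - (e + 1) + 1 := by omega
      have h3 := wx_sub (R := R) (a := a + d - (e + 1)) (by omega) x
      rw [← h2] at h3
      have h4 : LL R (a + d - 1) x ≤ LL R (a + d - (e + 1)) x := LL_antitone R hx (by omega)
      have h5 := mul_le_mul_of_nonneg_left h4 hx
      push_cast
      linarith
  have h := key d le_rfl
  have e1 : a + d - d = a := by omega
  rw [e1] at h
  have e2 : (((a + d : ℕ) : ℝ) - a) = d := by push_cast; ring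
  rw [e2]
  exact h

open scoped Classical in
/-- The squares. -/
noncomputable def sqq (G : SimpleGraph V) (R : ℕ) (x : ℝ) (N : Finset (Sym2 V)) : ℝ :=
  ∑ u, ∑ v, if u ∈ free N ∧ v ∈ free N ∧ G.Adj u v then
    (1 / 2) * (((D G N u : ℕ) : ℝ) - (D G N v : ℕ)) ^ 2 *
      LL R (max (D G N u) (D G N v) - 2) x else 0

open scoped Classical in
/-- The triangles. -/
noncomputable def trr (G : SimpleGraph V) (R : ℕ) (x : ℝ) (N : Finset (Sym2 V)) : ℝ :=
  ∑ v, if v ∈ free N then
    (∑ a ∈ nb G N v, (((nb G N v).filter (fun b => G.Adj a b)).card : ℝ)) *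
      LL R (D G N v - 2) x else 0

theorem Dle {R : ℕ} (hreg : Reg G R) (N : Finset (Sym2 V)) (v : V) : D G N v ≤ R := by
  classical
  unfold D nb
  rw [← hreg v]
  refine Finset.card_le_card fun u hu => ?_
  rw [Finset.mem_filter] at hu ⊢
  exact ⟨Finset.mem_univ u, hu.2⟩

private theorem WA_key {R : ℕ} {x : ℝ} (hx : 0 ≤ x) {a b : ℕ} (ha : 1 ≤ a) (hab : a ≤ b)
    (hb : b ≤ R + 1) :
    (1 / 2) * ((b : ℝ) - a) ^ 2 * (x * LL R (b - 2) x) ≤
      (1 / 2) * ((b : ℝ) - a) * (wx R x (a - 1) - wx R x (b - 1)) := by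
  have h1 := wx_gap (R := R) (a := a - 1) (b := b - 1) (by omega) (by omega) hx
  have h2 : (((b - 1 : ℕ) : ℝ) - ((a - 1 : ℕ) : ℝ)) = (b : ℝ) - a := by
    rw [Nat.cast_sub (by omega), Nat.cast_sub (by omega)]
    ring
  rw [h2, Nat.sub_sub] at h1
  have h3 : (0 : ℝ) ≤ (b : ℝ) - a := by
    have : (a : ℝ) ≤ b := by exact_mod_cast hab
    linarith
  have h4 := mul_le_mul_of_nonneg_left h1 h3
  linarith

private theorem WA_phi1 {R : ℕ} {x : ℝ} (hx : 0 ≤ x) {a b : ℕ} (ha : 1 ≤ a) (hb : 1 ≤ b)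
    (ha1 : a ≤ R + 1) (hb1 : b ≤ R + 1) :
    x * ((1 / 2) * ((a : ℝ) - b) ^ 2 * LL R (max a b - 2) x) ≤
    (1 / 2) * ((a : ℝ) - b) * (wx R x (b - 1) - wx R x (a - 1)) := by
  rcases le_total a b with h | h
  · have h1 := WA_key hx ha h hb1
    rw [max_eq_right h]
    calc x * ((1 / 2) * ((a : ℝ) - b) ^ 2 * LL R (b - 2) x)
        = (1 / 2) * ((b : ℝ) - a) ^ 2 * (x * LL R (b - 2) x) := by ring
      _ ≤ (1 / 2) * ((b : ℝ) - a) * (wx R x (a - 1) - wx R x (b - 1)) := h1
      _ = (1 / 2) * ((a : ℝ) - b) * (wx R x (b - 1) - wx R x (a - 1)) := by ring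
  · have h1 := WA_key hx hb h ha1
    rw [max_eq_left h]
    calc x * ((1 / 2) * ((a : ℝ) - b) ^ 2 * LL R (a - 2) x)
        = (1 / 2) * ((a : ℝ) - b) ^ 2 * (x * LL R (a - 2) x) := by ring
      _ ≤ (1 / 2) * ((a : ℝ) - b) * (wx R x (b - 1) - wx R x (a - 1)) := h1

private theorem WA_pos {N : Finset (Sym2 V)} {u v : V} (hv : v ∈ free N) (h : G.Adj u v) :
    1 ≤ D G N u := by
  classical
  unfold D nb
  exact Finset.card_pos.2 ⟨v, Finset.mem_filter.2 ⟨hv, h⟩⟩

theorem WW_lower {R : ℕ} (hreg : Reg G (R + 1)) {x : ℝ} (hx : 0 ≤ x) (N : Finset (Sym2 V)) :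
    x * (sqq G R x N + trr G R x N) ≤ WW G (wx R x) N := by
  classical
  unfold WW sqq trr
  rw [mul_add, Finset.mul_sum, Finset.mul_sum]
  refine add_le_add (Finset.sum_le_sum fun u _ => ?_) (Finset.sum_le_sum fun v _ => ?_)
  · rw [Finset.mul_sum]
    refine Finset.sum_le_sum fun v _ => ?_
    unfold phi1
    split_ifs with h
    · exact WA_phi1 hx (WA_pos h.2.1 h.2.2) (WA_pos h.1 h.2.2.symm) (Dle hreg N u) (Dle hreg N v)
    · rw [mul_zero]
  · unfold phi2
    split_ifs with h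
    · obtain ⟨t, ht⟩ : ∃ t : ℝ, t = ∑ a ∈ nb G N v,
          (((nb G N v).filter (fun b => G.Adj a b)).card : ℝ) := ⟨_, rfl⟩
      have ht0 : 0 ≤ t := by
        rw [ht]
        exact Finset.sum_nonneg fun a _ => Nat.cast_nonneg _
      rw [← ht]
      rcases lt_or_ge (D G N v) 2 with h2 | h2
      · have h3 : t = 0 := by
          rw [ht]
          refine Finset.sum_eq_zero fun a ha => ?_
          rw [Nat.cast_eq_zero, Finset.card_eq_zero, Finset.filter_eq_empty_iff]
          intro b hb hab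
          have h4 : a ≠ b := hab.ne
          have h5 : 2 ≤ (nb G N v).card := by
            have h6 : ({a, b} : Finset V) ⊆ nb G N v := by
              intro c hc
              rcases Finset.mem_insert.1 hc with h7 | h7
              · rw [h7]; exact ha
              · rw [Finset.mem_singleton.1 h7]; exact hb
            have h8 := Finset.card_le_card h6
            rwa [Finset.card_pair h4] at h8
          have h9 : D G N v = (nb G N v).card := rfl
          omega
        rw [h3]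
        simp
      · have h3 := Dle hreg N v
        have h4 := wx_sub (R := R) (a := D G N v - 2) (by omega) x
        have h5 : D G N v - 2 + 1 = D G N v - 1 := by omega
        rw [h5] at h4
        rw [h4]
        exact le_of_eq (by ring)
    · rw [mul_zero]

/-- The lower bound of the numerator of the logarithmic derivative. -/
theorem Dp_lower {q R : ℕ} (hV : Fintype.card V = 2 * (q * (R + 1))) (hreg : Reg G (R + 1)) {x : ℝ}
    (hx : 0 ≤ x) : ((R : ℝ) + 1) * x ^ 2 * WS G x (fun N => sqq G R x N + trr G R x N) ≤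
      2 * (Dp (R + 1) q G).eval x := by
  rw [Dp_eval hV hreg]
  have h1 : WS G x (fun N => x * (sqq G R x N + trr G R x N)) ≤ WS G x (fun N => WW G (wx R x) N) :=
    WS_mono hx fun N _ => WW_lower hreg hx N
  rw [WS_smul] at h1
  have h2 := mul_le_mul_of_nonneg_left h1 (show 0 ≤ ((R : ℝ) + 1) * x by positivity)
  calc ((R : ℝ) + 1) * x ^ 2 * WS G x (fun N => sqq G R x N + trr G R x N)
      = ((R : ℝ) + 1) * x * (x * WS G x (fun N => sqq G R x N + trr G R x N)) := by ring
    _ ≤ ((R : ℝ) + 1) * x * WS G x (fun N => WW G (wx R x) N) := h2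

end

end Pool.Agent.Lib.MP_eeed5c_coW
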