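import Pool.Agent.Lib.MP_eeed5c_co_W.WA

/-!
# The size of the weights
-/

set_option autoImplicit false

namespace Pool.Agent.Lib.MP_eeed5c_coW

open Finset Pool.Agent.Lib.MP_eeed5c_co Pool.Agent.Lib.MP_eeed5c_coT Pool.Agent.Lib.MP_eeed5c_coU
  Pool.Agent.Lib.MP_eeed5c_coN

theorem kp_ev_succ (s : ℕ) (x : ℝ) :
    (kp (s + 1)).eval x = (Lp s).eval x + s * x * (kp s).eval x := by
  rw [kp_succ]
  simp only [Polynomial.eval_add, Polynomial.eval_mul, Polynomial.eval_C, Polynomial.eval_X]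

theorem Lp_ev_succ (s : ℕ) (x : ℝ) :
    (Lp (s + 1)).eval x = (kp (s + 1)).eval x + ((s : ℝ) + 1) * x * (Lp s).eval x := by
  rw [Lp_succ]
  simp only [Polynomial.eval_add, Polynomial.eval_mul, Polynomial.eval_C, Polynomial.eval_X]

theorem Lp_ev_one (s : ℕ) {x : ℝ} (hx : 0 ≤ x) : 1 ≤ (Lp s).eval x := Lp_pos s hx

theorem kp_ev_pos (s : ℕ) {x : ℝ} (hx : 0 ≤ x) : 0 < (kp s).eval x := by
  rcases s with _ | s
  · unfold kp kc
    simp
  · rw [kp_ev_succ]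
    have h1 := Lp_ev_one s hx
    have h2 := kp_eval_nonneg s hx
    have h3 : 0 ≤ (s : ℝ) * x * (kp s).eval x := by positivity
    linarith

/-- `K_{s,s} ≤ (1 + √(s x)) K_{s,s-1}` and `√((s+1) x) K_{s,s} ≤ K_{s+1,s}`. -/
theorem rho (s : ℕ) {x : ℝ} (hx : 0 ≤ x) (hx1 : x ≤ 1) :
    (Lp s).eval x ≤ (1 + √((s : ℝ) * x)) * (kp s).eval x ∧
      √(((s : ℝ) + 1) * x) * (Lp s).eval x ≤ (kp (s + 1)).eval x := by
  have step : ∀ s : ℕ, (Lp s).eval x ≤ (1 + √((s : ℝ) * x)) * (kp s).eval x →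
      √(((s : ℝ) + 1) * x) * (Lp s).eval x ≤ (kp (s + 1)).eval x := by
    intro s h
    obtain ⟨σ, hσ⟩ : ∃ σ, σ = √((s : ℝ) * x) := ⟨_, rfl⟩
    obtain ⟨τ, hτ⟩ : ∃ τ, τ = √(((s : ℝ) + 1) * x) := ⟨_, rfl⟩
    have hσ0 : 0 ≤ σ := by rw [hσ]; exact Real.sqrt_nonneg _
    have hτ0 : 0 ≤ τ := by rw [hτ]; exact Real.sqrt_nonneg _
    have hσ2 : σ ^ 2 = s * x := by rw [hσ]; exact Real.sq_sqrt (by positivity)
    have hτ2 : τ ^ 2 = σ ^ 2 + x := by
      rw [hσ2, hτ, Real.sq_sqrt (by positivity)]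
      ring
    rw [← hσ] at h
    rw [← hτ, kp_ev_succ, ← hσ2]
    obtain ⟨L, hL⟩ : ∃ L, L = (Lp s).eval x := ⟨_, rfl⟩
    obtain ⟨k, hk⟩ : ∃ k, k = (kp s).eval x := ⟨_, rfl⟩
    have hL1 : 1 ≤ L := by rw [hL]; exact Lp_ev_one s hx
    rw [← hL, ← hk] at h ⊢
    have h1 : (1 + σ) * τ ≤ 1 + σ + σ ^ 2 := by
      apply le_of_sq_le_sq _ (by positivity)
      rw [mul_pow, hτ2]
      nlinarith [mul_nonneg hσ0 hσ0, mul_nonneg (mul_nonneg hσ0 hσ0) hσ0,
        mul_nonneg (sq_nonneg (1 + σ)) (sub_nonneg.2 hx1), sq_nonneg σ, sq_nonneg (σ ^ 2)]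
    have h2 : σ ^ 2 * L ≤ σ ^ 2 * ((1 + σ) * k) := mul_le_mul_of_nonneg_left h (sq_nonneg σ)
    have h3 : (1 + σ) * (τ * L) ≤ (1 + σ) * (L + σ ^ 2 * k) := by
      have h4 := mul_le_mul_of_nonneg_right h1 (show 0 ≤ L by linarith)
      nlinarith
    exact le_of_mul_le_mul_left h3 (by linarith)
  have main : ∀ s : ℕ, (Lp s).eval x ≤ (1 + √((s : ℝ) * x)) * (kp s).eval x := by
    intro s
    induction s with
    | zero =>
      have h1 : (Lp 0).eval x = 1 := by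
        rw [Lp_eval]
        simp [ell]
      have h2 : (kp 0).eval x = 1 := by
        unfold kp kc
        simp
      rw [h1, h2]
      have := Real.sqrt_nonneg (((0 : ℕ) : ℝ) * x)
      linarith
    | succ s ih =>
      have h1 := step s ih
      rw [Lp_ev_succ]
      push_cast
      obtain ⟨τ, hτ⟩ : ∃ τ, τ = √(((s : ℝ) + 1) * x) := ⟨_, rfl⟩
      have hτ0 : 0 ≤ τ := by rw [hτ]; exact Real.sqrt_nonneg _
      have hτ2 : ((s : ℝ) + 1) * x = τ ^ 2 := by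
        rw [hτ, Real.sq_sqrt (by positivity)]
      rw [← hτ] at h1 ⊢
      rw [hτ2]
      have h2 := mul_le_mul_of_nonneg_left h1 hτ0
      nlinarith
  exact ⟨main s, step s (main s)⟩

private theorem WB_gp {R t : ℕ} (ht : t ≤ R) (x : ℝ) :
    ((t : ℝ) + 1) * (gp R t).eval x - ((R : ℝ) - t) * ((R : ℝ) - t - 1) * x * (gp R (t + 1)).eval x =
      ((R : ℝ) + 1) * (Lp R).eval x - ((R : ℝ) - t) * (kp (R + 1)).eval x := by
  have h := congrArg (fun P => Polynomial.eval x P) (gp_rec ht)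
  simp only [Polynomial.eval_add, Polynomial.eval_sub, Polynomial.eval_mul, Polynomial.eval_C,
    Polynomial.eval_X] at h
  linarith

theorem LL_zero {R : ℕ} (hR : 1 ≤ R) {x : ℝ} (hx : 0 < x) : LL R 0 x = (kp R).eval x := by
  obtain ⟨S, rfl⟩ : ∃ S, R = S + 1 := ⟨R - 1, by omega⟩
  have h1 := wx_sub (R := S + 1) (a := 0) (by omega) x
  have h2 := WB_gp (R := S + 1) (t := S + 1) le_rfl x
  have h3 := WB_gp (R := S + 1) (t := S) (by omega) x
  have h4 := kp_ev_succ (S + 1) x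
  unfold wx at h1
  rw [Nat.sub_zero, show S + 1 - (0 + 1) = S by omega] at h1
  push_cast at h1 h2 h3 h4
  have h5 : (gp (S + 1) (S + 1)).eval x = (Lp (S + 1)).eval x := by
    have h6 : ((S : ℝ) + 1 + 1) * ((gp (S + 1) (S + 1)).eval x) =
        ((S : ℝ) + 1 + 1) * ((Lp (S + 1)).eval x) := by linarith
    exact mul_left_cancel₀ (by positivity) h6
  have h7 : ((S : ℝ) + 1) * (gp (S + 1) S).eval x =
      ((S : ℝ) + 1) * ((Lp (S + 1)).eval x - x * (kp (S + 1)).eval x) := by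
    have e : (S : ℝ) + 1 - S = 1 := by ring
    rw [e] at h3
    rw [h4] at h3
    linarith
  have h8 := mul_left_cancel₀ (by positivity) h7
  rw [h5, h8] at h1
  have h9 : x * LL (S + 1) 0 x = x * (kp (S + 1)).eval x := by linarith
  exact mul_left_cancel₀ hx.ne' h9

theorem LL_one {R : ℕ} (hR : 2 ≤ R) {x : ℝ} (hx : 0 < x) :
    ((R : ℝ) - 1) * (LL R 0 x - LL R 1 x) = 2 * ((Lp R).eval x - (1 + x) * (kp R).eval x) := by
  obtain ⟨S, rfl⟩ : ∃ S, R = S + 2 := ⟨R - 2, by omega⟩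
  have h0 := LL_zero (R := S + 2) (by omega) hx
  have h1 := wx_sub (R := S + 2) (a := 0) (by omega) x
  have h1' := wx_sub (R := S + 2) (a := 1) (by omega) x
  have h2 := WB_gp (R := S + 2) (t := S + 2) le_rfl x
  have h3 := WB_gp (R := S + 2) (t := S + 1) (by omega) x
  have h3' := WB_gp (R := S + 2) (t := S) (by omega) x
  have h4 := kp_ev_succ (S + 2) x
  unfold wx at h1 h1'
  rw [Nat.sub_zero, show S + 2 - (0 + 1) = S + 1 by omega] at h1
  rw [show S + 2 - 1 = S + 1 by omega, show S + 2 - (1 + 1) = S by omega] at h1'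
  push_cast at h1 h1' h2 h3 h3' h4
  have e1 : (S : ℝ) + 2 - (S + 1) = 1 := by ring
  have e2 : (S : ℝ) + 2 - S = 2 := by ring
  rw [e1] at h3
  rw [e2] at h3'
  rw [h4] at h3 h3'
  obtain ⟨g0, hg0⟩ : ∃ g, g = (gp (S + 2) (S + 2)).eval x := ⟨_, rfl⟩
  obtain ⟨g1, hg1⟩ : ∃ g, g = (gp (S + 2) (S + 1)).eval x := ⟨_, rfl⟩
  obtain ⟨g2, hg2⟩ : ∃ g, g = (gp (S + 2) S).eval x := ⟨_, rfl⟩
  obtain ⟨L, hL⟩ : ∃ L, L = (Lp (S + 2)).eval x := ⟨_, rfl⟩
  obtain ⟨k, hk⟩ : ∃ k, k = (kp (S + 2)).eval x := ⟨_, rfl⟩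
  rw [← hk] at h0
  rw [h0] at h1 ⊢
  rw [← hg0, ← hg1] at h1
  rw [← hg1, ← hg2] at h1'
  rw [← hg1, ← hL, ← hk] at h3
  rw [← hg2, show S + 1 = S + 1 from rfl, ← hg1, ← hL, ← hk] at h3'
  rw [← hL, ← hk]
  -- `g1 = L - x k`
  have h5 : g1 = L - x * k := by
    have h6 : ((S : ℝ) + 2) * g1 = ((S : ℝ) + 2) * (L - x * k) := by linarith
    exact mul_left_cancel₀ (by positivity) h6
  have h7 : ((S : ℝ) + 1) * (x * LL (S + 2) 1 x) = ((S : ℝ) + 1) * (g1 - g2) := by rw [h1']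
  have h8 : x * (((S : ℝ) + 2 - 1) * (k - LL (S + 2) 1 x)) = x * (2 * (L - (1 + x) * k)) := by
    have h9 : ((S : ℝ) + 1) * g2 = 2 * (2 - 1) * x * g1 + (((S : ℝ) + 2 + 1) * L -
        2 * (L + ((S : ℝ) + 2) * x * k)) := by linarith
    rw [h5] at h7 h9
    linarith
  push_cast
  exact mul_left_cancel₀ hx.ne' h8

/-- The terms of `LL R 0`. -/
noncomputable def tt (R : ℕ) (x : ℝ) (i : ℕ) : ℝ :=
  ((i : ℝ) + 1) * (((R - 1).descFactorial i : ℕ) : ℝ) * x ^ i * (kp (R - 1 - i)).eval x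

theorem tt_nonneg (R : ℕ) {x : ℝ} (hx : 0 ≤ x) (i : ℕ) : 0 ≤ tt R x i := by
  unfold tt
  have := kp_eval_nonneg (R - 1 - i) hx
  positivity

theorem sum_tt (R : ℕ) (x : ℝ) : ∑ i ∈ range R, tt R x i = LL R 0 x := by
  unfold tt LL
  simp only [Nat.sub_zero]

private theorem WB_desc (t i : ℕ) : (i : ℝ) * (((t + 1).descFactorial i : ℕ) : ℝ) =
    ((t : ℝ) + 1) * ((((t + 1).descFactorial i : ℕ) : ℝ) - ((t.descFactorial i : ℕ) : ℝ)) := by
  induction i with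
  | zero => simp
  | succ i ih =>
    rw [Nat.descFactorial_succ, Nat.descFactorial_succ]
    rcases lt_or_ge t i with h | h
    · have h1 : t - i = 0 := by omega
      have h2 : t + 1 - i = 0 := by omega
      rw [h1, h2]
      simp
    · push_cast [Nat.cast_sub h, Nat.cast_sub (show i ≤ t + 1 by omega)]
      have h3 : (((t : ℝ) + 1) - i) * (i * (((t + 1).descFactorial i : ℕ) : ℝ)) =
        (((t : ℝ) + 1) - i) * (((t : ℝ) + 1) * ((((t + 1).descFactorial i : ℕ) : ℝ) -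
          ((t.descFactorial i : ℕ) : ℝ))) := by rw [ih]
      linarith

theorem sum_i_tt {R : ℕ} (hR : 2 ≤ R) (x : ℝ) :
    ∑ i ∈ range R, (i : ℝ) * tt R x i = ((R : ℝ) - 1) * (LL R 0 x - LL R 1 x) := by
  obtain ⟨S, rfl⟩ : ∃ S, R = S + 2 := ⟨R - 2, by omega⟩
  have h1 : LL (S + 2) 1 x = ∑ i ∈ range (S + 2), ((i : ℝ) + 1) *
      ((S.descFactorial i : ℕ) : ℝ) * x ^ i * (kp (S + 1 - i)).eval x := by
    unfold LL
    rw [show S + 2 - 1 = S + 1 by omega, show S + 1 - 1 = S by omega, Finset.sum_range_succ _ (S + 1),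
      Nat.descFactorial_eq_zero_iff_lt.2 (Nat.lt_succ_self S)]
    simp
  rw [h1, ← sum_tt, ← Finset.sum_sub_distrib, Finset.mul_sum]
  refine Finset.sum_congr rfl fun i _ => ?_
  unfold tt
  rw [show S + 2 - 1 = S + 1 by omega]
  have h2 := WB_desc S i
  push_cast
  calc (i : ℝ) * (((i : ℝ) + 1) * (((S + 1).descFactorial i : ℕ) : ℝ) * x ^ i *
        (kp (S + 1 - i)).eval x)
      = ((i : ℝ) * (((S + 1).descFactorial i : ℕ) : ℝ)) * (((i : ℝ) + 1) * x ^ i *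
        (kp (S + 1 - i)).eval x) := by ring
    _ = _ := by
      rw [h2]
      ring

/-- At least half of `LL R 0` comes from the first terms. -/
theorem half {R I : ℕ} (hR : 2 ≤ R) {x : ℝ} (hx : 0 < x) (hx1 : x ≤ 1)
    (hI : 4 * √((R : ℝ) * x) ≤ I) (hI0 : 0 < I) (hIR : I ≤ R) :
    (kp R).eval x / 2 ≤ ∑ i ∈ range I, tt R x i := by
  have h0 := LL_zero (R := R) (by omega) hx
  have h1 := sum_i_tt hR x
  rw [LL_one hR hx] at h1
  have h2 := (rho R hx.le hx1).1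
  have hk := kp_ev_pos R hx.le
  obtain ⟨σ, hσ⟩ : ∃ σ, σ = √((R : ℝ) * x) := ⟨_, rfl⟩
  rw [← hσ] at h2 hI
  have h3 : ∑ i ∈ range R, (i : ℝ) * tt R x i ≤ 2 * σ * (kp R).eval x := by
    rw [h1]
    have : 0 ≤ x * (kp R).eval x := by positivity
    linarith
  have h4 : ∑ i ∈ range R, tt R x i = ∑ i ∈ range I, tt R x i + ∑ i ∈ Finset.Ico I R, tt R x i := by
    rw [Finset.sum_range_add_sum_Ico _ hIR]
  have h5 : (I : ℝ) * ∑ i ∈ Finset.Ico I R, tt R x i ≤ ∑ i ∈ range R, (i : ℝ) * tt R x i := by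
    rw [Finset.mul_sum]
    have h6 : Finset.Ico I R ⊆ range R := by
      intro i hi
      rw [Finset.mem_Ico] at hi
      exact Finset.mem_range.2 hi.2
    refine le_trans (Finset.sum_le_sum fun i hi => ?_)
      (Finset.sum_le_sum_of_subset_of_nonneg h6 fun i _ _ =>
        mul_nonneg (Nat.cast_nonneg i) (tt_nonneg R hx.le i))
    rw [Finset.mem_Ico] at hi
    have h7 : (I : ℝ) ≤ i := by exact_mod_cast hi.1
    exact mul_le_mul_of_nonneg_right h7 (tt_nonneg R hx.le i)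
  have hIp : (0 : ℝ) < I := by exact_mod_cast hI0
  have h8 : (I : ℝ) * ∑ i ∈ Finset.Ico I R, tt R x i ≤ I * ((kp R).eval x / 2) := by
    refine h5.trans (h3.trans ?_)
    have h9 := mul_le_mul_of_nonneg_right hI hk.le
    linarith
  have h10 := le_of_mul_le_mul_left h8 hIp
  rw [sum_tt, h0] at h4
  linarith

private theorem WB_ratio {n a J : ℕ} {z : ℝ} (hz : 0 ≤ z) (haJ : a + J ≤ n)
    (h : ∀ l : ℕ, l < J → z * ((n : ℝ) - l) ≤ (n : ℝ) - a - l) {i : ℕ} (hi : i ≤ J) :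
    z ^ i * ((n.descFactorial i : ℕ) : ℝ) ≤ (((n - a).descFactorial i : ℕ) : ℝ) := by
  induction i with
  | zero => simp
  | succ i ih =>
    have h1 := ih (by omega)
    rw [Nat.descFactorial_succ, Nat.descFactorial_succ]
    push_cast [Nat.cast_sub (show i ≤ n by omega), Nat.cast_sub (show i ≤ n - a by omega),
      Nat.cast_sub (show a ≤ n by omega)]
    have h2 := h i (by omega)
    have h3 : (0 : ℝ) ≤ (n : ℝ) - i := by
      have : (i : ℝ) ≤ n := by exact_mod_cast (show i ≤ n by omega)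
      linarith
    calc z ^ (i + 1) * (((n : ℝ) - i) * ((n.descFactorial i : ℕ) : ℝ))
        = (z * ((n : ℝ) - i)) * (z ^ i * ((n.descFactorial i : ℕ) : ℝ)) := by ring
      _ ≤ ((n : ℝ) - a - i) * (((n - a).descFactorial i : ℕ) : ℝ) :=
          mul_le_mul h2 h1 (by positivity) ((mul_nonneg hz h3).trans h2)

theorem LL_lower {R a I : ℕ} (hR : 2 ≤ R) {x z : ℝ} (hx : 0 < x) (hx1 : x ≤ 1)
    (hI : 4 * √((R : ℝ) * x) ≤ I) (hI0 : 0 < I) (haI : a + I ≤ R) (hz : 0 ≤ z) (hz1 : z ≤ 1)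
    (hza : z * ((R : ℝ) - I) ≤ (R : ℝ) - I - a) :
    z ^ I * ((kp R).eval x / 2) ≤ LL R a x := by
  have h1 := half hR hx hx1 hI hI0 (by omega)
  have h2 : ∑ i ∈ range I, z ^ I * tt R x i ≤ LL R a x := by
    unfold LL
    have hsub : range I ⊆ range (R - a) := by
      intro i hi
      rw [Finset.mem_range] at hi ⊢
      omega
    refine le_trans (Finset.sum_le_sum fun i hi => ?_)
      (Finset.sum_le_sum_of_subset_of_nonneg hsub fun i _ _ => ?_)
    · rw [Finset.mem_range] at hi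
      unfold tt
      have h3 : z ^ I ≤ z ^ i := pow_le_pow_of_le_one hz hz1 hi.le
      have h4 : z ^ i * (((R - 1).descFactorial i : ℕ) : ℝ) ≤ (((R - 1 - a).descFactorial i : ℕ) : ℝ) := by
        refine WB_ratio (J := I - 1) hz (by omega) ?_ (by omega)
        intro l hl
        have h5 : ((R - 1 : ℕ) : ℝ) = (R : ℝ) - 1 := by
          rw [Nat.cast_sub (by omega)]
          norm_num
        rw [h5]
        have h6 : (l : ℝ) + 2 ≤ I := by exact_mod_cast (show l + 2 ≤ I by omega)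
        nlinarith
      have h7 := kp_eval_nonneg (R - 1 - i) hx.le
      have h8 : z ^ I * (((R - 1).descFactorial i : ℕ) : ℝ) ≤ (((R - 1 - a).descFactorial i : ℕ) : ℝ) :=
        (mul_le_mul_of_nonneg_right h3 (Nat.cast_nonneg _)).trans h4
      calc z ^ I * (((i : ℝ) + 1) * (((R - 1).descFactorial i : ℕ) : ℝ) * x ^ i *
            (kp (R - 1 - i)).eval x)
          = (((i : ℝ) + 1) * x ^ i * (kp (R - 1 - i)).eval x) *
            (z ^ I * (((R - 1).descFactorial i : ℕ) : ℝ)) := by ring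
        _ ≤ (((i : ℝ) + 1) * x ^ i * (kp (R - 1 - i)).eval x) *
            (((R - 1 - a).descFactorial i : ℕ) : ℝ) := mul_le_mul_of_nonneg_left h8 (by positivity)
        _ = _ := by ring
    · have := kp_eval_nonneg (R - 1 - i) hx.le
      positivity
  rw [← Finset.mul_sum] at h2
  exact (mul_le_mul_of_nonneg_left h1 (pow_nonneg hz I)).trans h2

/-- `K_{R+1,R+1}` against `K_{R,R-1}`. -/
theorem Lp_kp {R : ℕ} {x y : ℝ} (hx : 0 ≤ x) (hx1 : x ≤ 1) (hy : ((R : ℝ) + 1) * x = y)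
    (hy1 : 1 ≤ y) : (Lp (R + 1)).eval x ≤ 5 * √y ^ 3 * (kp R).eval x := by
  have h1 := (rho R hx hx1).1
  have h2 := kp_ev_pos R hx
  obtain ⟨w, hw⟩ : ∃ w, w = √y := ⟨_, rfl⟩
  have hw2 : w ^ 2 = y := by rw [hw]; exact Real.sq_sqrt (by linarith)
  have hw0 : 0 ≤ w := by rw [hw]; exact Real.sqrt_nonneg _
  have hw1 : 1 ≤ w := by
    by_contra hc
    push Not at hc
    nlinarith
  have hRy : (R : ℝ) * x ≤ y := by rw [← hy]; linarith
  have h3 : √((R : ℝ) * x) ≤ w := by rw [hw]; exact Real.sqrt_le_sqrt hRy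
  have h4 : (Lp R).eval x ≤ (1 + w) * (kp R).eval x :=
    h1.trans (mul_le_mul_of_nonneg_right (by linarith) h2.le)
  rw [Lp_ev_succ, kp_ev_succ, hy, ← hw]
  have h5 : (R : ℝ) * x * (kp R).eval x ≤ y * (kp R).eval x := mul_le_mul_of_nonneg_right hRy h2.le
  have h6 : (1 + y) * (Lp R).eval x ≤ (1 + y) * ((1 + w) * (kp R).eval x) :=
    mul_le_mul_of_nonneg_left h4 (by linarith)
  have h7 : (1 + y) * (1 + w) + y ≤ 5 * w ^ 3 := by
    rw [← hw2]
    nlinarith [mul_nonneg hw0 hw0, mul_nonneg (mul_nonneg hw0 hw0) (sub_nonneg.2 hw1),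
      mul_nonneg hw0 (sub_nonneg.2 hw1)]
  have h8 := mul_le_mul_of_nonneg_right h7 h2.le
  linarith

end Pool.Agent.Lib.MP_eeed5c_coW
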